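import Mathlib

set_option autoImplicit false

/-!
# The data of the example

A skeleton with 27 vertices, drawn with straight segments on integer points.
-/

namespace Pool.Agent.Helper29.OnePlane

/-- Table of the x-coordinates (6 bits each). -/
def CX : ℕ :=
  0x1c76071b59a6dd99058b3cc4513895464c0519552

/-- Table of the y-coordinates (6 bits each). -/
def CY : ℕ :=
  0x91c61481ca28c0062cf44e45a54d6c62c1812349

/-- Adjacency table (27 bits for each vertex). -/
def ADJ : ℕ :=
  0xd700002e9000068e00006c50001ac2000061c0086488004a2900094280031d2800e02280131f2000e000dd00002f1000069600006950001aa2000328c0005258000185c00144c4001c6b823036900c1f2807a02a800c0528018072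

/-- x-coordinate of vertex `i` -/
def cx (i : ℕ) : ℕ := CX / 64 ^ i % 64

/-- y-coordinate of vertex `i` -/
def cy (i : ℕ) : ℕ := CY / 64 ^ i % 64

/-- adjacency of the vertices `i` and `j` -/
def adjB (i j : ℕ) : Bool := ADJ / 2 ^ (27 * i + j) % 2 == 1

/-- The edges. -/
def edgesL : List (ℕ × ℕ) :=
  [(0, 1), (0, 4), (0, 5), (0, 6), (0, 15), (0, 16), (1, 2), (1, 5), (1, 7), (1, 15), (1, 16),
   (2, 3), (2, 5), (2, 7), (2, 15), (2, 17), (2, 18), (2, 19), (2, 20), (3, 4), (3, 7), (3, 8),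
   (3, 9), (3, 10), (3, 11), (3, 17), (3, 18), (4, 5), (4, 6), (4, 8), (4, 9), (4, 16), (4, 17),
   (4, 21), (5, 6), (5, 7), (5, 11), (5, 12), (5, 13), (6, 8), (6, 12), (6, 14), (7, 10), (7,
   11), (8, 9), (8, 12), (8, 14), (9, 10), (9, 13), (9, 14), (10, 11), (10, 13), (10, 14), (11,
   12), (11, 13), (12, 13), (12, 14), (13, 14), (15, 16), (15, 19), (15, 20), (15, 21), (15,
   22), (15, 23), (16, 17), (16, 21), (17, 18), (17, 21), (17, 23), (17, 24), (17, 25), (18,
   19), (18, 24), (18, 26), (19, 20), (19, 24), (19, 26), (20, 22), (20, 25), (20, 26), (21,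
   22), (21, 23), (22, 23), (22, 25), (22, 26), (23, 24), (23, 25), (24, 25), (24, 26), (25,
   26)]

/-- The faces `(a, b, c, d)` on the left of the directed skeleton edge `(a, b)`; for `c = d` the
open triangle `abc`, otherwise the quarter at the side `ab` of the quadrilateral `abcd`. -/
def facesL : List (ℕ × ℕ × ℕ × ℕ) :=
  [(0, 1, 5, 5), (1, 5, 0, 0), (5, 0, 1, 1), (4, 0, 5, 6), (0, 5, 6, 4), (5, 6, 4, 0), (6, 4, 0,
   5), (1, 2, 7, 5), (2, 7, 5, 1), (7, 5, 1, 2), (5, 1, 2, 7), (2, 3, 7, 7), (3, 7, 2, 2), (7,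
   2, 3, 3), (3, 4, 8, 9), (4, 8, 9, 3), (8, 9, 3, 4), (9, 3, 4, 8), (7, 3, 10, 11), (3, 10, 11,
   7), (10, 11, 7, 3), (11, 7, 3, 10), (3, 9, 10, 10), (9, 10, 3, 3), (10, 3, 9, 9), (4, 6, 8,
   8), (6, 8, 4, 4), (8, 4, 6, 6), (6, 5, 12, 12), (5, 12, 6, 6), (12, 6, 5, 5), (5, 7, 11, 11),
   (7, 11, 5, 5), (11, 5, 7, 7), (5, 11, 13, 12), (11, 13, 12, 5), (13, 12, 5, 11), (12, 5, 11,
   13), (8, 6, 12, 14), (6, 12, 14, 8), (12, 14, 8, 6), (14, 8, 6, 12), (9, 8, 14, 14), (8, 14,
   9, 9), (14, 9, 8, 8), (10, 9, 14, 13), (9, 14, 13, 10), (14, 13, 10, 9), (13, 10, 9, 14),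
   (12, 13, 14, 14), (13, 14, 12, 12), (14, 12, 13, 13), (11, 10, 13, 13), (10, 13, 11, 11),
   (13, 11, 10, 10), (16, 15, 1, 0), (15, 1, 0, 16), (1, 0, 16, 15), (0, 16, 15, 1), (16, 0, 4,
   4), (0, 4, 16, 16), (4, 16, 0, 0), (15, 2, 1, 1), (2, 1, 15, 15), (1, 15, 2, 2), (18, 17, 3,
   2), (17, 3, 2, 18), (3, 2, 18, 17), (2, 18, 17, 3), (20, 19, 2, 15), (19, 2, 15, 20), (2, 15,
   20, 19), (15, 20, 19, 2), (19, 18, 2, 2), (18, 2, 19, 19), (2, 19, 18, 18), (17, 21, 16, 4),
   (21, 16, 4, 17), (16, 4, 17, 21), (4, 17, 21, 16), (21, 15, 16, 16), (15, 16, 21, 21), (16,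
   21, 15, 15), (22, 20, 15, 15), (20, 15, 22, 22), (15, 22, 20, 20), (23, 22, 15, 21), (22, 15,
   21, 23), (15, 21, 23, 22), (21, 23, 22, 15), (24, 17, 18, 18), (17, 18, 24, 24), (18, 24, 17,
   17), (23, 21, 17, 17), (21, 17, 23, 23), (17, 23, 21, 21), (24, 25, 23, 17), (25, 23, 17,
   24), (23, 17, 24, 25), (17, 24, 25, 23), (26, 24, 18, 19), (24, 18, 19, 26), (18, 19, 26,
   24), (19, 26, 24, 18), (26, 19, 20, 20), (19, 20, 26, 26), (20, 26, 19, 19), (25, 26, 20,
   22), (26, 20, 22, 25), (20, 22, 25, 26), (22, 25, 26, 20), (26, 25, 24, 24), (25, 24, 26,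
   26), (24, 26, 25, 25), (25, 22, 23, 23), (22, 23, 25, 25), (23, 25, 22, 22)]

/-- The quadrilaterals whose two diagonals cross. -/
def kitesL : List (ℕ × ℕ × ℕ × ℕ) :=
  [(4, 0, 5, 6), (1, 2, 7, 5), (3, 4, 8, 9), (7, 3, 10, 11), (5, 11, 13, 12), (8, 6, 12, 14),
   (10, 9, 14, 13), (16, 15, 1, 0), (18, 17, 3, 2), (20, 19, 2, 15), (17, 21, 16, 4), (23, 22,
   15, 21), (24, 25, 23, 17), (26, 24, 18, 19), (25, 26, 20, 22)]

/-- The neighbours of each vertex, in counterclockwise order. -/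
def nbsL : List (List ℕ) :=
  [[6, 4, 16, 15, 1, 5], [5, 0, 16, 15, 2, 7], [5, 1, 15, 20, 19, 18, 17, 3, 7], [4, 8, 9, 10,
   11, 7, 2, 18, 17], [17, 21, 16, 0, 5, 6, 8, 9, 3], [6, 4, 0, 1, 2, 7, 11, 13, 12], [4, 0, 5,
   12, 14, 8], [10, 11, 5, 1, 2, 3], [4, 6, 12, 14, 9, 3], [4, 8, 14, 13, 10, 3], [9, 14, 13,
   11, 7, 3], [12, 5, 7, 3, 10, 13], [8, 6, 5, 11, 13, 14], [14, 12, 5, 11, 10, 9], [8, 6, 12,
   13, 10, 9], [0, 16, 21, 23, 22, 20, 19, 2, 1], [4, 17, 21, 15, 1, 0], [3, 2, 18, 24, 25, 23,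
   21, 16, 4], [19, 26, 24, 17, 3, 2], [26, 24, 18, 2, 15, 20], [22, 25, 26, 19, 2, 15], [16, 4,
   17, 23, 22, 15], [21, 23, 25, 26, 20, 15], [17, 24, 25, 22, 15, 21], [23, 17, 18, 19, 26,
   25], [23, 17, 24, 26, 20, 22], [22, 25, 24, 18, 19, 20]]

/-- Positive part of the orientation of `(a, b, c)`. -/
def op (a b c : ℕ) : ℕ := cx b * cy c + cy b * cx a + cy a * cx c

/-- Negative part of the orientation of `(a, b, c)`. -/
def om (a b c : ℕ) : ℕ := cx b * cy a + cx a * cy c + cy b * cx c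

/-- `c` is strictly to the left of the line `ab`. -/
def lft (a b c : ℕ) : Bool := Nat.blt (om a b c) (op a b c)

/-- the neighbour list of `u` -/
def nbs (u : ℕ) : List ℕ := nbsL.getD u []

/-- The vertices in the closure of a face. -/
def vertsF (f : ℕ × ℕ × ℕ × ℕ) : List ℕ :=
  if f.2.2.1 == f.2.2.2 then [f.1, f.2.1, f.2.2.1] else [f.1, f.2.1]

/-- `(a, b)` is an edge of the outer triangle, in counterclockwise order. -/
def outerE (a b : ℕ) : Bool := (a == 3 && b == 4) || (a == 4 && b == 17) || (a == 17 && b == 3)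

/-! ### Checks -/

/-- basic checks for a face -/
def faceOK (f : ℕ × ℕ × ℕ × ℕ) : Bool :=
  lft f.1 f.2.1 f.2.2.1 && lft f.1 f.2.1 f.2.2.2 && !lft f.2.1 f.2.2.2 f.2.2.1 &&
  !lft f.2.2.1 f.1 f.2.2.2 && adjB f.1 f.2.1 && adjB f.2.1 f.2.2.2 && adjB f.2.2.1 f.1

/-- only the listed vertices are in the closure of a face -/
def faceVertsOK (f : ℕ × ℕ × ℕ × ℕ) : Bool :=
  (List.range 27).all fun w =>
    lft f.2.1 f.1 w || lft f.2.2.2 f.2.1 w || lft f.1 f.2.2.1 w || (vertsF f).contains w

/-- rotations of triangular faces are faces -/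
def faceRotOK (f : ℕ × ℕ × ℕ × ℕ) : Bool :=
  !(f.2.2.1 == f.2.2.2) ||
    (facesL.contains (f.2.1, f.2.2.1, f.1, f.1) && facesL.contains (f.2.2.1, f.1, f.2.1, f.2.1))

/-- pairwise adjacent lists -/
def clique (l l' : List ℕ) : Bool := l.all fun x => l'.all fun y => x == y || adjB x y

/-- the face on the other side -/
def faceOppOK (f : ℕ × ℕ × ℕ × ℕ) : Bool :=
  (outerE f.1 f.2.1 && clique (vertsF f ++ [3, 4, 17]) (vertsF f ++ [3, 4, 17])) ||
  (facesL.any fun g => g.1 == f.2.1 && g.2.1 == f.1 &&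
    clique (vertsF f ++ vertsF g) (vertsF f ++ vertsF g))

/-- every edge is a diagonal or a side of a face -/
def edgeOK (e : ℕ × ℕ) : Bool :=
  (kitesL.any fun k => (k.1 == e.1 && k.2.2.1 == e.2) || (k.1 == e.2 && k.2.2.1 == e.1) ||
    (k.2.1 == e.1 && k.2.2.2 == e.2) || (k.2.1 == e.2 && k.2.2.2 == e.1)) ||
  (facesL.any fun f => (f.1 == e.1 && f.2.1 == e.2) || (f.1 == e.2 && f.2.1 == e.1))

/-- no vertex is on the line of an edge, except its ends -/
def edgeGenOK (e : ℕ × ℕ) : Bool :=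
  (List.range 27).all fun w => w == e.1 || w == e.2 || lft e.1 e.2 w || lft e.2 e.1 w

/-- the face at `u` between the consecutive neighbours `w, w'` -/
def sectorOK (u w w' : ℕ) : Bool :=
  facesL.any fun f => (f.1 == u && f.2.1 == w && f.2.2.1 == w') ||
    (f.2.1 == u && f.2.2.2 == w && f.1 == w')

/-- consecutive elements satisfy `sectorOK u` -/
def chainOK (u : ℕ) : List ℕ → Bool
  | [] => true
  | [_] => true
  | w :: w' :: l => sectorOK u w w' && chainOK u (w' :: l)

/-- check for an inner vertex -/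
def innerOK (u : ℕ) : Bool :=
  chainOK u (nbs u ++ (nbs u).take 1) &&
  ((nbs u).any fun i => (nbs u).any fun j => (nbs u).any fun k =>
    lft u i j && lft u j k && lft u k i)

/-- check for an outer vertex -/
def outerOK (u v w : ℕ) : Bool :=
  chainOK u (nbs u) && (nbs u).head? == some v && (nbs u).getLast? == some w

/-- the segments of the edges `e` and `f` can cross only if they are the diagonals of a kite -/
def separated (a b c d : ℕ) : Bool :=
  (lft a b c && lft a b d) || (lft b a c && lft b a d) ||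
  (lft c d a && lft c d b) || (lft d c a && lft d c b)

/-- if the edges share an end they do not overlap; otherwise they are separated by a line -/
def noCross (e f : ℕ × ℕ) : Bool :=
  if e.1 == f.1 then lft e.1 e.2 f.2 || lft e.2 e.1 f.2
  else if e.1 == f.2 then lft e.1 e.2 f.1 || lft e.2 e.1 f.1
  else if e.2 == f.1 then lft e.1 e.2 f.2 || lft e.2 e.1 f.2
  else if e.2 == f.2 then lft e.1 e.2 f.1 || lft e.2 e.1 f.1
  else separated e.1 e.2 f.1 f.2

/-- `e` and `f` are the two diagonals of the kite `k` -/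
def isKite (k : ℕ × ℕ × ℕ × ℕ) (e f : ℕ × ℕ) : Bool :=
  ((e == (k.1, k.2.2.1) || e == (k.2.2.1, k.1)) && (f == (k.2.1, k.2.2.2) || f == (k.2.2.2, k.2.1)))
    ||
  ((f == (k.1, k.2.2.1) || f == (k.2.2.1, k.1)) && (e == (k.2.1, k.2.2.2) || e == (k.2.2.2, k.2.1)))

/-- for every pair of edges: equal, not crossing, or diagonals of a kite -/
def pairOK (e f : ℕ × ℕ) : Bool := e == f || noCross e f || kitesL.any fun k => isKite k e f

theorem faces_ok : facesL.all faceOK = true := by decide +kernel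
theorem faces_verts_ok : facesL.all faceVertsOK = true := by decide +kernel
theorem faces_rot_ok : facesL.all faceRotOK = true := by decide +kernel
theorem faces_opp_ok : facesL.all faceOppOK = true := by decide +kernel
theorem edges_ok : edgesL.all edgeOK = true := by decide +kernel
theorem edges_gen_ok : edgesL.all edgeGenOK = true := by decide +kernel
theorem inner_ok : ((List.range 27).all fun u => u == 3 || u == 4 || u == 17 || innerOK u) = true := by
  decide +kernel
theorem outer_ok : (outerOK 3 4 17 && outerOK 4 17 3 && outerOK 17 3 4) = true := by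
  decide +kernel
theorem outer_tri_ok : ((List.range 27).all fun w => w == 3 || w == 4 || w == 17 ||
    (lft 3 4 w && lft 4 17 w && lft 17 3 w)) = true := by decide +kernel
theorem pairs_ok : (edgesL.all fun e => edgesL.all fun f => pairOK e f) = true := by decide +kernel
/-- the kites give four faces each -/
theorem kites_faces_ok : (kitesL.all fun k => facesL.contains k &&
    facesL.contains (k.2.1, k.2.2.1, k.2.2.2, k.1) &&
    facesL.contains (k.2.2.1, k.2.2.2, k.1, k.2.1) &&
    facesL.contains (k.2.2.2, k.1, k.2.1, k.2.2.1)) = true := by decide +kernel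
/-- the edge list describes the adjacency table -/
theorem adj_edges_ok : ((List.range 27).all fun i => (List.range 27).all fun j =>
    adjB i j == (edgesL.contains (i, j) || edgesL.contains (j, i))) = true := by decide +kernel

/-- strictness for the quarters of a quadrilateral -/
theorem faces_strict_ok : (facesL.all fun f => f.2.2.1 == f.2.2.2 ||
    (lft f.2.2.2 f.2.1 f.2.2.1 && lft f.1 f.2.2.1 f.2.2.2)) = true := by decide +kernel
theorem faces_lt_ok : (facesL.all fun f => Nat.blt f.1 27 && Nat.blt f.2.1 27 &&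
    Nat.blt f.2.2.1 27 && Nat.blt f.2.2.2 27) = true := by decide +kernel
theorem edges_lt_ok : (edgesL.all fun e => Nat.blt e.1 27 && Nat.blt e.2 27 &&
    Nat.blt e.1 e.2) = true := by decide +kernel
theorem edges_adj_ok : (edgesL.all fun e => adjB e.1 e.2) = true := by decide +kernel
theorem no_loop_ok : ((List.range 27).all fun i => !adjB i i) = true := by decide +kernel
theorem outer_faces_ok : (facesL.any (fun f => f.1 == 3 && f.2.1 == 4) &&
    facesL.any (fun f => f.1 == 4 && f.2.1 == 17) &&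
    facesL.any (fun f => f.1 == 17 && f.2.1 == 3)) = true := by decide +kernel
/-- every edge crosses at most one other edge -/
theorem partner_ok : (edgesL.all fun e =>
    Nat.ble (edgesL.filter (fun f => !(e == f) && !(noCross e f))).length 1) = true := by
  decide +kernel
theorem pos_inj_ok : ((List.range 27).all fun i => (List.range 27).all fun j =>
    i == j || !(cx i == cx j && cy i == cy j)) = true := by decide +kernel
/-- different kites have different first diagonals, and a first diagonal is no second diagonal -/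
theorem kites_distinct_ok : (kitesL.all fun k => kitesL.all fun l => k == l ||
    !((l.1 == k.1 && l.2.2.1 == k.2.2.1) || (l.1 == k.2.2.1 && l.2.2.1 == k.1) ||
      (l.1 == k.2.1 && l.2.2.1 == k.2.2.2) || (l.1 == k.2.2.2 && l.2.2.1 == k.2.1))) = true := by
  decide +kernel

end Pool.Agent.Helper29.OnePlane
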