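import Mathlib

set_option autoImplicit false

namespace Pool.Agent.Helper29.OnePlane

/-- Orientation of the triple `(a, b, p)`: positive iff `p` lies to the left of the line `ab`. -/
def orR (a b p : ℝ × ℝ) : ℝ := (b.1 - a.1) * (p.2 - a.2) - (b.2 - a.2) * (p.1 - a.1)

lemma continuous_orR (a b : ℝ × ℝ) : Continuous (orR a b) := by
  unfold orR
  fun_prop

lemma orR_affine (a b p q : ℝ × ℝ) (s t : ℝ) (h : s + t = 1) :
    orR a b (s • p + t • q) = s * orR a b p + t * orR a b q := by
  have hs : s = 1 - t := by linarith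
  subst hs
  simp only [orR, Prod.fst_add, Prod.snd_add, Prod.smul_fst, Prod.smul_snd, smul_eq_mul]
  ring

lemma orR_left (a b : ℝ × ℝ) : orR a b a = 0 := by unfold orR; ring
lemma orR_right (a b : ℝ × ℝ) : orR a b b = 0 := by unfold orR; ring
lemma orR_rot (a b c : ℝ × ℝ) : orR b c a = orR a b c := by unfold orR; ring
lemma orR_rot' (a b c : ℝ × ℝ) : orR c a b = orR a b c := by unfold orR; ring
lemma orR_swap (a b c : ℝ × ℝ) : orR b a c = - orR a b c := by unfold orR; ring

/-- A point of the line `AB`, in parametric form. -/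
lemma param {A B C p : ℝ × ℝ} (h0 : orR A B C ≠ 0) (h : orR A B p = 0) :
    (1 - orR C A p / orR A B C) • A + (orR C A p / orR A B C) • B = p := by
  ext
  · simp only [Prod.fst_add, Prod.smul_fst, smul_eq_mul]
    field_simp
    unfold orR at *
    linear_combination (A.1 - C.1) * h
  · simp only [Prod.snd_add, Prod.smul_snd, smul_eq_mul]
    field_simp
    unfold orR at *
    linear_combination (A.2 - C.2) * h

lemma mem_segment_of_param {A B p : ℝ × ℝ} {t : ℝ} (h : (1 - t) • A + t • B = p) (h0 : 0 ≤ t)
    (h1 : t ≤ 1) : p ∈ segment ℝ A B :=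
  ⟨1 - t, t, by linarith, h0, by ring, h⟩

/-- The open face `(A, B, C, D)`: the points to the left of the lines `AB`, `BD` and `CA`.
For `C = D` this is the open triangle `ABC`; if `ABCD` is a convex quadrilateral it is the quarter
of it cut off by the diagonals at the side `AB`. -/
def U (A B C D : ℝ × ℝ) : Set (ℝ × ℝ) := {p | 0 < orR A B p ∧ 0 < orR B D p ∧ 0 < orR C A p}

/-- The corresponding closed face. -/
def K (A B C D : ℝ × ℝ) : Set (ℝ × ℝ) := {p | 0 ≤ orR A B p ∧ 0 ≤ orR B D p ∧ 0 ≤ orR C A p}

lemma isOpen_U (A B C D : ℝ × ℝ) : IsOpen (U A B C D) := by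
  apply IsOpen.inter (isOpen_lt continuous_const (continuous_orR A B))
  exact IsOpen.inter (isOpen_lt continuous_const (continuous_orR B D))
    (isOpen_lt continuous_const (continuous_orR C A))

lemma isClosed_K (A B C D : ℝ × ℝ) : IsClosed (K A B C D) := by
  apply IsClosed.inter (isClosed_le continuous_const (continuous_orR A B))
  exact IsClosed.inter (isClosed_le continuous_const (continuous_orR B D))
    (isClosed_le continuous_const (continuous_orR C A))

lemma closure_U_subset (A B C D : ℝ × ℝ) : closure (U A B C D) ⊆ K A B C D :=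
  closure_minimal (fun _ hp => ⟨hp.1.le, hp.2.1.le, hp.2.2.le⟩) (isClosed_K A B C D)

/-- The conditions for `(A, B, C, D)` to be a face. -/
structure IsFace (A B C D : ℝ × ℝ) : Prop where
  c : 0 < orR A B C
  d : 0 < orR A B D
  bdc : orR B D C ≤ 0
  cad : orR C A D ≤ 0

/-- A point of the closed face on the first line lies on the side `AB`. -/
lemma mem_side1 {A B C D p : ℝ × ℝ} (hF : IsFace A B C D) (hp : p ∈ K A B C D)
    (h : orR A B p = 0) : p ∈ segment ℝ A B := by
  have hpar := param hF.c.ne' h
  set t := orR C A p / orR A B C with ht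
  have h0 : 0 ≤ t := div_nonneg hp.2.2 hF.c.le
  have h1 : t ≤ 1 := by
    have h2 := hp.2.1
    rw [← hpar, orR_affine _ _ _ _ _ _ (by ring), orR_left] at h2
    have h3 : orR B D A = orR A B D := orR_rot A B D
    rw [h3] at h2
    nlinarith [hF.d]
  exact mem_segment_of_param hpar h0 h1

/-- A point of the closed face on the second line lies on the segment `BD`. -/
lemma mem_side2 {A B C D p : ℝ × ℝ} (hF : IsFace A B C D) (hp : p ∈ K A B C D)
    (h : orR B D p = 0) : p ∈ segment ℝ B D := by
  have h3 : orR B D A = orR A B D := orR_rot A B D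
  have hpar := param (A := B) (B := D) (C := A) (p := p) (by rw [h3]; exact hF.d.ne') h
  set t := orR A B p / orR B D A with ht
  have h0 : 0 ≤ t := div_nonneg hp.1 (by rw [h3]; exact hF.d.le)
  have h1 : t ≤ 1 := by
    by_contra hcon
    have h2 := hp.2.2
    rw [← hpar, orR_affine _ _ _ _ _ _ (by ring)] at h2
    have h4 : orR C A B = orR A B C := orR_rot' A B C
    rw [h4] at h2
    have h5 := hF.c
    have h6 := hF.cad
    have h7 : (1 - t) * orR A B C < 0 := mul_neg_of_neg_of_pos (by linarith) h5
    have h8 : t * orR C A D ≤ 0 := mul_nonpos_of_nonneg_of_nonpos h0 h6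
    linarith
  exact mem_segment_of_param hpar h0 h1

/-- A point of the closed face on the third line lies on the segment `CA`. -/
lemma mem_side3 {A B C D p : ℝ × ℝ} (hF : IsFace A B C D) (hp : p ∈ K A B C D)
    (h : orR C A p = 0) : p ∈ segment ℝ C A := by
  have h4 : orR C A B = orR A B C := orR_rot' A B C
  have hpar := param (A := A) (B := C) (C := B) (p := p)
    (by rw [orR_swap C A B, h4]; exact neg_ne_zero.mpr hF.c.ne') (by rw [orR_swap C A p, h, neg_zero])
  set t := orR B A p / orR A C B with ht
  have ht2 : t = orR A B p / orR A B C := by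
    rw [ht, orR_swap A B p, orR_swap C A B, h4, neg_div_neg_eq]
  have h0 : 0 ≤ t := by rw [ht2]; exact div_nonneg hp.1 hF.c.le
  have h1 : t ≤ 1 := by
    by_contra hcon
    have h2 := hp.2.1
    rw [← hpar, orR_affine _ _ _ _ _ _ (by ring)] at h2
    have h3 : orR B D A = orR A B D := orR_rot A B D
    rw [h3] at h2
    have h5 := hF.d
    have h6 := hF.bdc
    have h7 : (1 - t) * orR A B D < 0 := mul_neg_of_neg_of_pos (by linarith) h5
    have h8 : t * orR B D C ≤ 0 := mul_nonpos_of_nonneg_of_nonpos h0 h6
    linarith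
  rw [segment_symm]
  exact mem_segment_of_param hpar h0 h1

/-- A point of the closed face lies in the open face or on one of the three segments. -/
lemma mem_U_or_side {A B C D p : ℝ × ℝ} (hF : IsFace A B C D) (hp : p ∈ K A B C D) :
    p ∈ U A B C D ∨ p ∈ segment ℝ A B ∨ p ∈ segment ℝ B D ∨ p ∈ segment ℝ C A := by
  rcases hp.1.eq_or_lt with h | h
  · exact Or.inr (Or.inl (mem_side1 hF hp h.symm))
  rcases hp.2.1.eq_or_lt with h' | h'
  · exact Or.inr (Or.inr (Or.inl (mem_side2 hF hp h'.symm)))
  rcases hp.2.2.eq_or_lt with h'' | h''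
  · exact Or.inr (Or.inr (Or.inr (mem_side3 hF hp h''.symm)))
  exact Or.inl ⟨h, h', h''⟩

end Pool.Agent.Helper29.OnePlane
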