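import Mathlib
import Pool.Agent.Helper29.OnePlane.Geom
import Pool.Agent.Helper29.OnePlane.Data

set_option autoImplicit false

namespace Pool.Agent.Helper29.OnePlane

/-- The point of vertex `i`. -/
noncomputable def R (i : ℕ) : ℝ × ℝ := ((cx i : ℝ), (cy i : ℝ))

lemma orR_R (a b c : ℕ) : orR (R a) (R b) (R c) = (op a b c : ℝ) - (om a b c : ℝ) := by
  simp only [orR, R, op, om]
  push_cast
  ring

lemma lft_pos {a b c : ℕ} (h : lft a b c = true) : 0 < orR (R a) (R b) (R c) := by
  rw [orR_R]
  have h1 : om a b c < op a b c := by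
    unfold lft at h
    exact Nat.blt_eq.mp h
  have h2 : (om a b c : ℝ) < (op a b c : ℝ) := by exact_mod_cast h1
  linarith

lemma not_lft {a b c : ℕ} (h : lft a b c = false) : orR (R a) (R b) (R c) ≤ 0 := by
  rw [orR_R]
  have h1 : ¬ om a b c < op a b c := by
    intro h2
    have : lft a b c = true := Nat.blt_eq.mpr h2
    rw [h] at this
    exact Bool.false_ne_true this
  have h2 : (op a b c : ℝ) ≤ (om a b c : ℝ) := by exact_mod_cast not_lt.mp h1
  linarith

/-- The open face of `f`. -/
def UF (f : ℕ × ℕ × ℕ × ℕ) : Set (ℝ × ℝ) := U (R f.1) (R f.2.1) (R f.2.2.1) (R f.2.2.2)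

/-- The closed face of `f`. -/
def KF (f : ℕ × ℕ × ℕ × ℕ) : Set (ℝ × ℝ) := K (R f.1) (R f.2.1) (R f.2.2.1) (R f.2.2.2)

lemma face_ok {f : ℕ × ℕ × ℕ × ℕ} (hf : f ∈ facesL) :
    IsFace (R f.1) (R f.2.1) (R f.2.2.1) (R f.2.2.2) ∧ adjB f.1 f.2.1 = true ∧
      adjB f.2.1 f.2.2.2 = true ∧ adjB f.2.2.1 f.1 = true := by
  have h := List.all_eq_true.mp faces_ok f hf
  unfold faceOK at h
  simp only [Bool.and_eq_true, Bool.not_eq_true'] at h
  obtain ⟨⟨⟨⟨⟨⟨h1, h2⟩, h3⟩, h4⟩, h5⟩, h6⟩, h7⟩ := h
  exact ⟨⟨lft_pos h1, lft_pos h2, not_lft h3, not_lft h4⟩, h5, h6, h7⟩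

/-- Only the listed vertices lie in a closed face. -/
lemma mem_verts_of_mem_KF {f : ℕ × ℕ × ℕ × ℕ} (hf : f ∈ facesL) {w : ℕ} (hw : w < 27)
    (h : R w ∈ KF f) : w ∈ vertsF f := by
  have h1 := List.all_eq_true.mp faces_verts_ok f hf
  unfold faceVertsOK at h1
  have h2 := List.all_eq_true.mp h1 w (List.mem_range.mpr hw)
  simp only [Bool.or_eq_true] at h2
  obtain ⟨k1, k2, k3⟩ := h
  rcases h2 with ((h3 | h3) | h3) | h3
  · have := lft_pos h3
    rw [orR_swap] at this
    linarith
  · have := lft_pos h3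
    rw [orR_swap] at this
    linarith
  · have := lft_pos h3
    rw [orR_swap] at this
    linarith
  · exact List.contains_iff_mem.mp h3

/-- The outer region. -/
def Out : Set (ℝ × ℝ) :=
  {p | orR (R 3) (R 4) p < 0 ∨ orR (R 4) (R 17) p < 0 ∨ orR (R 17) (R 3) p < 0}

/-- A closed set containing the closure of the outer region. -/
def KOut : Set (ℝ × ℝ) :=
  {p | orR (R 3) (R 4) p ≤ 0 ∨ orR (R 4) (R 17) p ≤ 0 ∨ orR (R 17) (R 3) p ≤ 0}

lemma isOpen_Out : IsOpen Out :=
  IsOpen.union (isOpen_lt (continuous_orR _ _) continuous_const)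
    (IsOpen.union (isOpen_lt (continuous_orR _ _) continuous_const)
      (isOpen_lt (continuous_orR _ _) continuous_const))

lemma isClosed_KOut : IsClosed KOut :=
  IsClosed.union (isClosed_le (continuous_orR _ _) continuous_const)
    (IsClosed.union (isClosed_le (continuous_orR _ _) continuous_const)
      (isClosed_le (continuous_orR _ _) continuous_const))

lemma closure_Out_subset : closure Out ⊆ KOut :=
  closure_minimal (fun _ hp => by
    rcases hp with h | h | h
    · exact Or.inl h.le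
    · exact Or.inr (Or.inl h.le)
    · exact Or.inr (Or.inr h.le)) isClosed_KOut

lemma mem_outer_of_mem_KOut {w : ℕ} (hw : w < 27) (h : R w ∈ KOut) : w ∈ [3, 4, 17] := by
  have h2 := List.all_eq_true.mp outer_tri_ok w (List.mem_range.mpr hw)
  simp only [Bool.or_eq_true, Bool.and_eq_true, beq_iff_eq] at h2
  rcases h2 with ((h3 | h3) | h3) | h3
  · simp [h3]
  · simp [h3]
  · simp [h3]
  · exfalso
    obtain ⟨⟨k1, k2⟩, k3⟩ := h3
    have k1 := lft_pos k1
    have k2 := lft_pos k2
    have k3 := lft_pos k3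
    rcases h with h | h | h <;> linarith

/-! ### Sectors around a vertex -/

/-- The conditions on a point near `R u`: it satisfies the third inequality of every face at `u`. -/
def Near (u : ℕ) (p : ℝ × ℝ) : Prop :=
  ∀ f ∈ facesL, (f.1 = u → 0 ≤ orR (R f.2.1) (R f.2.2.2) p) ∧
    (f.2.1 = u → 0 ≤ orR (R f.2.2.1) (R f.1) p)

lemma sector {u w w' : ℕ} {p : ℝ × ℝ} (hs : sectorOK u w w' = true) (hn : Near u p)
    (h1 : 0 ≤ orR (R u) (R w) p) (h2 : orR (R u) (R w') p ≤ 0) : ∃ f ∈ facesL, p ∈ KF f := by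
  unfold sectorOK at hs
  rw [List.any_eq_true] at hs
  obtain ⟨f, hf, hs⟩ := hs
  simp only [Bool.or_eq_true, Bool.and_eq_true, beq_iff_eq] at hs
  refine ⟨f, hf, ?_⟩
  rcases hs with ⟨⟨e1, e2⟩, e3⟩ | ⟨⟨e1, e2⟩, e3⟩
  · refine ⟨?_, ?_, ?_⟩
    · rw [e1, e2]; exact h1
    · exact (hn f hf).1 e1
    · rw [e1, e3, orR_swap]; linarith
  · refine ⟨?_, ?_, ?_⟩
    · rw [e1, e3, orR_swap]; linarith
    · rw [e1, e2]; exact h1
    · exact (hn f hf).2 e1

lemma chain_exists {u : ℕ} {p : ℝ × ℝ} : ∀ (w : ℕ) (l : List ℕ), chainOK u (w :: l) = true →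
    0 ≤ orR (R u) (R w) p → ∀ z, (w :: l).getLast? = some z → l ≠ [] → orR (R u) (R z) p ≤ 0 →
    ∃ a b, sectorOK u a b = true ∧ 0 ≤ orR (R u) (R a) p ∧ orR (R u) (R b) p ≤ 0
  | w, [], _, _, _, _, hne, _ => absurd rfl hne
  | w, w' :: l, hc, hw, z, hz, _, hz2 => by
    simp only [chainOK, Bool.and_eq_true] at hc
    rcases le_or_gt (orR (R u) (R w') p) 0 with h | h
    · exact ⟨w, w', hc.1, hw, h⟩
    · rcases l with _ | ⟨w'', l⟩
      · simp only [List.getLast?_cons_cons, List.getLast?_singleton, Option.some.injEq] at hz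
        rw [hz] at h
        linarith
      · apply chain_exists w' (w'' :: l) hc.2 h.le z _ (by simp) hz2
        rw [List.getLast?_cons_cons] at hz
        exact hz

lemma chain_last {u : ℕ} {p : ℝ × ℝ}
    (H : ∀ a b, sectorOK u a b = true → 0 ≤ orR (R u) (R a) p → 0 < orR (R u) (R b) p) :
    ∀ (w : ℕ) (l : List ℕ), chainOK u (w :: l) = true →
    (∃ x ∈ w :: l, 0 ≤ orR (R u) (R x) p) → ∀ z, (w :: l).getLast? = some z →
    0 ≤ orR (R u) (R z) p
  | w, [], _, hex, z, hz => by
    obtain ⟨x, hx, hx2⟩ := hex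
    simp only [List.mem_singleton] at hx
    simp only [List.getLast?_singleton, Option.some.injEq] at hz
    rw [← hz, ← hx]; exact hx2
  | w, w' :: l, hc, hex, z, hz => by
    simp only [chainOK, Bool.and_eq_true] at hc
    rw [List.getLast?_cons_cons] at hz
    apply chain_last H w' l hc.2 _ z hz
    obtain ⟨x, hx, hx2⟩ := hex
    rw [List.mem_cons] at hx
    rcases hx with hx | hx
    · rw [hx] at hx2
      exact ⟨w', by simp, (H w w' hc.1 hx2).le⟩
    · exact ⟨x, hx, hx2⟩

lemma chain_tail {u : ℕ} {p : ℝ × ℝ}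
    (H : ∀ a b, sectorOK u a b = true → 0 ≤ orR (R u) (R a) p → 0 < orR (R u) (R b) p) :
    ∀ (w : ℕ) (l : List ℕ), chainOK u (w :: l) = true →
    0 ≤ orR (R u) (R w) p → ∀ z ∈ l, 0 < orR (R u) (R z) p
  | w, [], _, _, z, hz => absurd hz (by simp)
  | w, w' :: l, hc, hw, z, hz => by
    simp only [chainOK, Bool.and_eq_true] at hc
    have h1 := H w w' hc.1 hw
    rw [List.mem_cons] at hz
    rcases hz with hz | hz
    · rw [hz]; exact h1
    · exact chain_tail H w' l hc.2 h1.le z hz

lemma triple_identity (u i j k p : ℝ × ℝ) :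
    orR u j k * orR u i p + orR u k i * orR u j p + orR u i j * orR u k p = 0 := by
  unfold orR
  ring

/-- Every point near an inner vertex lies in a closed face. -/
lemma near_inner {u : ℕ} (hu : innerOK u = true) {p : ℝ × ℝ} (hn : Near u p) :
    ∃ f ∈ facesL, p ∈ KF f := by
  unfold innerOK at hu
  rw [Bool.and_eq_true] at hu
  obtain ⟨hc, ht⟩ := hu
  by_contra hcon
  have H : ∀ a b, sectorOK u a b = true → 0 ≤ orR (R u) (R a) p → 0 < orR (R u) (R b) p := by
    intro a b hab ha
    by_contra hb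
    exact hcon (sector hab hn ha (not_lt.mp hb))
  simp only [List.any_eq_true, Bool.and_eq_true] at ht
  obtain ⟨i, hi, j, hj, k, hk, ⟨hij, hjk⟩, hki⟩ := ht
  have hij := lft_pos hij
  have hjk := lft_pos hjk
  have hki := lft_pos hki
  have hid := triple_identity (R u) (R i) (R j) (R k) p
  rcases hl : nbs u with _ | ⟨w, l⟩
  · rw [hl] at hi
    simp at hi
  · rw [hl] at hc hi hj hk
    have hlast : (w :: l ++ (w :: l).take 1).getLast? = some w := by
      rw [show (w :: l).take 1 = [w] by simp]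
      exact List.getLast?_concat
    have hcons : w :: l ++ (w :: l).take 1 = w :: (l ++ [w]) := by simp
    rw [hcons] at hc hlast
    by_cases hex : ∃ x ∈ w :: (l ++ [w]), 0 ≤ orR (R u) (R x) p
    · have h1 := chain_last H w (l ++ [w]) hc hex w hlast
      have h2 := chain_tail H w (l ++ [w]) hc h1
      have h3 : ∀ x ∈ w :: l, 0 < orR (R u) (R x) p := by
        intro x hx
        apply h2
        rw [List.mem_cons] at hx
        rcases hx with hx | hx
        · rw [hx]; simp
        · simp [hx]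
      have a1 := mul_pos hjk (h3 i hi)
      have a2 := mul_pos hki (h3 j hj)
      have a3 := mul_pos hij (h3 k hk)
      linarith
    · push Not at hex
      have h3 : ∀ x ∈ w :: l, orR (R u) (R x) p < 0 := by
        intro x hx
        apply hex
        rw [List.mem_cons] at hx ⊢
        rcases hx with hx | hx
        · exact Or.inl hx
        · right; simp [hx]
      have a1 := mul_neg_of_pos_of_neg hjk (h3 i hi)
      have a2 := mul_neg_of_pos_of_neg hki (h3 j hj)
      have a3 := mul_neg_of_pos_of_neg hij (h3 k hk)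
      linarith

/-- Every point near an outer vertex lies in a closed face, or is cut off by a line. -/
lemma near_outer {u v w : ℕ} (hu : outerOK u v w = true) (hvw : v ≠ w) {p : ℝ × ℝ}
    (hn : Near u p) (h1 : 0 ≤ orR (R u) (R v) p) (h2 : orR (R u) (R w) p ≤ 0) :
    ∃ f ∈ facesL, p ∈ KF f := by
  unfold outerOK at hu
  simp only [Bool.and_eq_true, beq_iff_eq] at hu
  obtain ⟨⟨hc, hh⟩, hl⟩ := hu
  rcases hlist : nbs u with _ | ⟨x, l⟩
  · rw [hlist] at hh; simp at hh
  · rw [hlist] at hc hh hl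
    simp only [List.head?_cons, Option.some.injEq] at hh
    subst hh
    have hne : l ≠ [] := by
      intro h
      rw [h] at hl
      simp only [List.getLast?_singleton, Option.some.injEq] at hl
      exact hvw hl
    obtain ⟨a, b, hab, ha, hb⟩ := chain_exists x l hc h1 w hl hne h2
    exact sector hab hn ha hb

/-- Every point near a vertex lies in a closed face or in the outer region. -/
lemma near_cover {u : ℕ} (hu : u < 27) {p : ℝ × ℝ} (hn : Near u p) :
    (∃ f ∈ facesL, p ∈ KF f) ∨ p ∈ Out := by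
  by_cases hO : p ∈ Out
  · exact Or.inr hO
  left
  unfold Out at hO
  simp only [Set.mem_ofPred_eq, not_or, not_lt] at hO
  obtain ⟨o1, o2, o3⟩ := hO
  have h := List.all_eq_true.mp inner_ok u (List.mem_range.mpr hu)
  have ho := outer_ok
  simp only [Bool.or_eq_true, beq_iff_eq, Bool.and_eq_true] at h ho
  obtain ⟨⟨ho1, ho2⟩, ho3⟩ := ho
  rcases h with ((h | h) | h) | h
  · subst h
    exact near_outer ho1 (by norm_num) hn o1 (by rw [orR_swap]; linarith)
  · subst h
    exact near_outer ho2 (by norm_num) hn o2 (by rw [orR_swap]; linarith)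
  · subst h
    exact near_outer ho3 (by norm_num) hn o3 (by rw [orR_swap]; linarith)
  · exact near_inner h hn

lemma eventually_list {α β : Type} {x : Filter α} (P : β → α → Prop) :
    ∀ l : List β, (∀ b ∈ l, ∀ᶠ a in x, P b a) → ∀ᶠ a in x, ∀ b ∈ l, P b a
  | [], _ => Filter.Eventually.of_forall (fun a b hb => absurd hb (by simp))
  | b :: l, h => by
    have h1 := h b (by simp)
    have h2 := eventually_list P l (fun c hc => h c (by simp [hc]))
    filter_upwards [h1, h2] with a ha1 ha2 c hc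
    rw [List.mem_cons] at hc
    rcases hc with hc | hc
    · rw [hc]; exact ha1
    · exact ha2 c hc

/-- All points close to `R u` satisfy `Near u`. -/
lemma eventually_near (u : ℕ) : ∀ᶠ p in nhds (R u), Near u p := by
  apply eventually_list
  intro f hf
  obtain ⟨hF, _⟩ := face_ok hf
  apply Filter.Eventually.and
  · by_cases h : f.1 = u
    · have h1 : 0 < orR (R f.2.1) (R f.2.2.2) (R u) := by
        rw [← h, orR_rot]; exact hF.d
      have h2 := (continuous_orR (R f.2.1) (R f.2.2.2)).continuousAt.eventually_const_lt h1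
      filter_upwards [h2] with p hp _
      exact hp.le
    · exact Filter.Eventually.of_forall (fun p hp => absurd hp h)
  · by_cases h : f.2.1 = u
    · have h1 : 0 < orR (R f.2.2.1) (R f.1) (R u) := by
        rw [← h, orR_rot']; exact hF.c
      have h2 := (continuous_orR (R f.2.2.1) (R f.1)).continuousAt.eventually_const_lt h1
      filter_upwards [h2] with p hp _
      exact hp.le
    · exact Filter.Eventually.of_forall (fun p hp => absurd hp h)

end Pool.Agent.Helper29.OnePlane
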