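import Mathlib
import Pool.Agent.Helper29.OnePlane.Local

set_option autoImplicit false

namespace Pool.Agent.Helper29.OnePlane

/-- The closed segment between the vertices `a` and `b`. -/
def seg (a b : ℕ) : Set (ℝ × ℝ) := segment ℝ (R a) (R b)

lemma seg_comm (a b : ℕ) : seg a b = seg b a := segment_symm ℝ _ _

lemma merge {s V1 V2 N T : Set (ℝ × ℝ)} (hs : IsPreconnected s) (o1 : IsOpen V1) (o2 : IsOpen V2)
    (oN : IsOpen N) (hT : IsClosed T) (hN : N ⊆ V1 ∪ V2 ∪ T) (hTs : T ∩ s ⊆ N)
    (h1 : closure V1 ∩ s ⊆ V1 ∪ N) (h2 : closure V2 ∩ s ⊆ V2 ∪ N)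
    (hne : (s ∩ (V1 ∪ V2 ∪ N)).Nonempty) : closure s ⊆ closure V1 ∪ closure V2 ∪ T := by
  have hcl : closure (V1 ∪ V2 ∪ N) ⊆ closure V1 ∪ closure V2 ∪ T := by
    have hN' : closure N ⊆ closure V1 ∪ closure V2 ∪ T := by
      have := closure_mono hN
      rw [closure_union, closure_union, hT.closure_eq] at this
      exact this
    rw [closure_union, closure_union]
    rintro x ((hx | hx) | hx)
    · exact Or.inl (Or.inl hx)
    · exact Or.inl (Or.inr hx)
    · exact hN' hx
  have hsub : s ⊆ V1 ∪ V2 ∪ N := by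
    apply hs.subset_of_closure_inter_subset ((o1.union o2).union oN) hne
    rintro x ⟨hx, hxs⟩
    rcases hcl hx with (hx | hx) | hx
    · rcases h1 ⟨hx, hxs⟩ with h | h
      · exact Or.inl (Or.inl h)
      · exact Or.inr h
    · rcases h2 ⟨hx, hxs⟩ with h | h
      · exact Or.inl (Or.inr h)
      · exact Or.inr h
    · exact Or.inr (hTs ⟨hx, hxs⟩)
  exact (closure_mono hsub).trans hcl

lemma isClosed_seg (a b : ℕ) : IsClosed (seg a b) := by
  unfold seg
  rw [segment_eq_image_lineMap]
  exact (isCompact_Icc.image (AffineMap.lineMap_continuous)).isClosed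

/-- The open set around the relative interior of the first side of a face. -/
def WF (f : ℕ × ℕ × ℕ × ℕ) : Set (ℝ × ℝ) :=
  {p | 0 < orR (R f.2.1) (R f.2.2.2) p ∧ 0 < orR (R f.2.2.1) (R f.1) p}

lemma isOpen_WF (f : ℕ × ℕ × ℕ × ℕ) : IsOpen (WF f) :=
  IsOpen.inter (isOpen_lt continuous_const (continuous_orR _ _))
    (isOpen_lt continuous_const (continuous_orR _ _))

lemma isOpen_UF (f : ℕ × ℕ × ℕ × ℕ) : IsOpen (UF f) := isOpen_U _ _ _ _

/-- points of the first side other than its ends are in `WF f` -/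
lemma seg_subset_WF {f : ℕ × ℕ × ℕ × ℕ} (hf : f ∈ facesL) {p : ℝ × ℝ}
    (hp : p ∈ seg f.1 f.2.1) (h1 : p ≠ R f.1) (h2 : p ≠ R f.2.1) : p ∈ WF f := by
  obtain ⟨hF, _⟩ := face_ok hf
  obtain ⟨s, t, hs, ht, hst, rfl⟩ := hp
  have hs' : 0 < s := by
    rcases hs.eq_or_lt with h | h
    · exfalso; apply h2
      have : t = 1 := by linarith
      rw [← h, this]; simp
    · exact h
  have ht' : 0 < t := by
    rcases ht.eq_or_lt with h | h
    · exfalso; apply h1
      have : s = 1 := by linarith
      rw [← h, this]; simp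
    · exact h
  constructor
  · rw [orR_affine _ _ _ _ _ _ hst, orR_left, mul_zero, add_zero, orR_rot]
    exact mul_pos hs' hF.d
  · rw [orR_affine _ _ _ _ _ _ hst, orR_right, mul_zero, zero_add, orR_rot']
    exact mul_pos ht' hF.c

lemma mem_UF_of_pos {f : ℕ × ℕ × ℕ × ℕ} {p : ℝ × ℝ} (h : p ∈ WF f)
    (h1 : 0 < orR (R f.1) (R f.2.1) p) : p ∈ UF f := ⟨h1, h.1, h.2⟩

lemma mem_seg_of_zero {f : ℕ × ℕ × ℕ × ℕ} (hf : f ∈ facesL) {p : ℝ × ℝ} (h : p ∈ WF f)
    (h1 : orR (R f.1) (R f.2.1) p = 0) : p ∈ seg f.1 f.2.1 :=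
  mem_side1 (face_ok hf).1 ⟨h1.ge, h.1.le, h.2.le⟩ h1

/-- What we want to prove: the vertices in the closure of `s` are pairwise adjacent. -/
def Concl (s : Set (ℝ × ℝ)) : Prop :=
  ∀ w w', w < 27 → w' < 27 → R w ∈ closure s → R w' ∈ closure s → w = w' ∨ adjB w w' = true

/-- A preconnected set that avoids all vertices. -/
structure Cut (s : Set (ℝ × ℝ)) : Prop where
  pre : IsPreconnected s
  vert : ∀ w, w < 27 → R w ∉ s

/-- `s` meets the edge `ab`. -/
def Touches (s : Set (ℝ × ℝ)) (a b : ℕ) : Prop := ∃ p ∈ s, p ∈ seg a b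

lemma touches_comm {s : Set (ℝ × ℝ)} {a b : ℕ} (h : Touches s a b) : Touches s b a := by
  obtain ⟨p, hp, hp2⟩ := h
  exact ⟨p, hp, by rw [seg_comm]; exact hp2⟩

lemma clique_spec {l : List ℕ} (h : clique l l = true) {w w' : ℕ} (hw : w ∈ l) (hw' : w' ∈ l) :
    w = w' ∨ adjB w w' = true := by
  unfold clique at h
  have h1 := List.all_eq_true.mp (List.all_eq_true.mp h w hw) w' hw'
  simpa using h1

lemma verts_clique {f : ℕ × ℕ × ℕ × ℕ} (hf : f ∈ facesL) {w w' : ℕ} (hw : w ∈ vertsF f)
    (hw' : w' ∈ vertsF f) : w = w' ∨ adjB w w' = true := by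
  have h := List.all_eq_true.mp faces_opp_ok f hf
  unfold faceOppOK at h
  rw [Bool.or_eq_true, Bool.and_eq_true, List.any_eq_true] at h
  rcases h with ⟨_, h⟩ | ⟨g, _, h⟩
  · exact clique_spec h (List.mem_append_left _ hw) (List.mem_append_left _ hw')
  · rw [Bool.and_eq_true] at h
    exact clique_spec h.2 (List.mem_append_left _ hw) (List.mem_append_left _ hw')

/-- points of `s` in the closure of a face with no side touched (except possibly the first) -/
lemma closure_UF_inter {s : Set (ℝ × ℝ)} {f : ℕ × ℕ × ℕ × ℕ} (hf : f ∈ facesL)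
    (h2 : ¬ Touches s f.2.1 f.2.2.2) (h3 : ¬ Touches s f.2.2.1 f.1) {p : ℝ × ℝ}
    (hp : p ∈ closure (UF f)) (hps : p ∈ s) : p ∈ UF f ∨ p ∈ seg f.1 f.2.1 := by
  have hK : p ∈ KF f := closure_U_subset _ _ _ _ hp
  rcases mem_U_or_side (face_ok hf).1 hK with h | h | h | h
  · exact Or.inl h
  · exact Or.inr h
  · exact absurd ⟨p, hps, h⟩ h2
  · exact absurd ⟨p, hps, h⟩ h3

/-- Case 0: `s` meets an open face none of whose sides it touches. -/
lemma case_face {s : Set (ℝ × ℝ)} (hs : Cut s) {f : ℕ × ℕ × ℕ × ℕ} (hf : f ∈ facesL)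
    (h1 : ¬ Touches s f.1 f.2.1) (h2 : ¬ Touches s f.2.1 f.2.2.2) (h3 : ¬ Touches s f.2.2.1 f.1)
    (hne : (s ∩ UF f).Nonempty) : Concl s := by
  have hsub : s ⊆ UF f := by
    apply hs.pre.subset_of_closure_inter_subset (isOpen_UF f) hne
    rintro p ⟨hp, hps⟩
    rcases closure_UF_inter hf h2 h3 hp hps with h | h
    · exact h
    · exact absurd ⟨p, hps, h⟩ h1
  intro w w' hw hw' hwc hwc'
  have hcl := (closure_mono hsub).trans (closure_U_subset _ _ _ _)
  exact verts_clique hf (mem_verts_of_mem_KF hf hw (hcl hwc)) (mem_verts_of_mem_KF hf hw' (hcl hwc'))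

/-- Case 1: `s` touches no edge except possibly the first side of the face `f`, and meets the open
face, its first side, or the outer region next to it. -/
lemma case_side {s : Set (ℝ × ℝ)} (hs : Cut s) {f : ℕ × ℕ × ℕ × ℕ} (hf : f ∈ facesL)
    (ht : ∀ a b, a < 27 → b < 27 → adjB a b = true → Touches s a b →
      s(a, b) = s(f.1, f.2.1))
    (hne : ∃ p ∈ s, p ∈ UF f ∨ p ∈ seg f.1 f.2.1 ∨ (outerE f.1 f.2.1 = true ∧ p ∈ Out)) :
    Concl s := by
  obtain ⟨hF, a1, a2, a3⟩ := face_ok hf
  have hlt := List.all_eq_true.mp faces_lt_ok f hf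
  simp only [Bool.and_eq_true, Nat.blt_eq] at hlt
  obtain ⟨⟨⟨l1, l2⟩, l3⟩, l4⟩ := hlt
  have hAB : f.1 ≠ f.2.1 := by
    intro h
    have := hF.c
    rw [h] at this
    unfold orR at this
    simp at this
  -- the other sides are not touched
  have h2 : ¬ Touches s f.2.1 f.2.2.2 := by
    intro h
    have h5 := ht _ _ l2 l4 a2 h
    rw [Sym2.eq_iff] at h5
    have hd := hF.d
    rcases h5 with ⟨h6, _⟩ | ⟨_, h6⟩
    · exact hAB h6.symm
    · rw [h6, orR_left] at hd
      exact lt_irrefl _ hd
  have h3 : ¬ Touches s f.2.2.1 f.1 := by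
    intro h
    have h5 := ht _ _ l3 l1 a3 h
    rw [Sym2.eq_iff] at h5
    have hc := hF.c
    rcases h5 with ⟨h6, h7⟩ | ⟨h6, _⟩
    · exact hAB h7
    · rw [h6, orR_right] at hc
      exact lt_irrefl _ hc
  have hWs : seg f.1 f.2.1 ∩ s ⊆ WF f := by
    rintro p ⟨hp, hps⟩
    apply seg_subset_WF hf hp
    · rintro rfl; exact hs.vert _ l1 hps
    · rintro rfl; exact hs.vert _ l2 hps
  have hopp := List.all_eq_true.mp faces_opp_ok f hf
  unfold faceOppOK at hopp
  rw [Bool.or_eq_true, Bool.and_eq_true, List.any_eq_true] at hopp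
  by_cases hout : outerE f.1 f.2.1 = true
  · -- the outer region is on the other side
    have hcl : clique (vertsF f ++ [3, 4, 17]) (vertsF f ++ [3, 4, 17]) = true := by
      rcases hopp with ⟨_, h⟩ | ⟨g, hg, h⟩
      · exact h
      · -- impossible, but we can avoid the discussion: check the clique directly
        exfalso
        rw [Bool.and_eq_true, Bool.and_eq_true, beq_iff_eq, beq_iff_eq] at h
        have hG := (face_ok hg).1
        have hK := mem_verts_of_mem_KF hg (w := 3) (by norm_num)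
        -- the third outer vertex is on the wrong side
        unfold outerE at hout
        simp only [Bool.or_eq_true, Bool.and_eq_true, beq_iff_eq] at hout
        have hgl := List.all_eq_true.mp faces_lt_ok g hg
        simp only [Bool.and_eq_true, Nat.blt_eq] at hgl
        obtain ⟨⟨⟨g1, g2⟩, g3⟩, g4⟩ := hgl
        have htri := List.all_eq_true.mp outer_tri_ok g.2.2.1 (List.mem_range.mpr g3)
        have hGc := hG.c
        rw [h.1.1, h.1.2] at hGc
        simp only [Bool.or_eq_true, beq_iff_eq, Bool.and_eq_true] at htri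
        have hz : ∀ a b c : ℕ, orR (R a) (R b) (R c) = (op a b c : ℝ) - (om a b c : ℝ) := orR_R
        rcases hout with (⟨e1, e2⟩ | ⟨e1, e2⟩) | ⟨e1, e2⟩ <;> rw [e1, e2] at hGc <;>
          rcases htri with ((e | e) | e) | ⟨⟨k1, k2⟩, k3⟩
        · rw [e, orR_right] at hGc; exact lt_irrefl _ hGc
        · rw [e, orR_left] at hGc; exact lt_irrefl _ hGc
        · rw [e, hz] at hGc
          have : (op 4 3 17 : ℝ) ≤ om 4 3 17 := by exact_mod_cast (by decide +kernel : op 4 3 17 ≤ om 4 3 17)
          linarith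
        · have := lft_pos k1
          rw [orR_swap] at hGc
          linarith
        · rw [e, hz] at hGc
          have : (op 17 4 3 : ℝ) ≤ om 17 4 3 := by exact_mod_cast (by decide +kernel : op 17 4 3 ≤ om 17 4 3)
          linarith
        · rw [e, orR_right] at hGc; exact lt_irrefl _ hGc
        · rw [e, orR_left] at hGc; exact lt_irrefl _ hGc
        · have := lft_pos k2
          rw [orR_swap] at hGc
          linarith
        · rw [e, orR_left] at hGc; exact lt_irrefl _ hGc
        · rw [e, hz] at hGc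
          have : (op 3 17 4 : ℝ) ≤ om 3 17 4 := by exact_mod_cast (by decide +kernel : op 3 17 4 ≤ om 3 17 4)
          linarith
        · rw [e, orR_right] at hGc; exact lt_irrefl _ hGc
        · have := lft_pos k3
          rw [orR_swap] at hGc
          linarith
    have hOutNeg : ∀ p, orR (R f.1) (R f.2.1) p < 0 → p ∈ Out := by
      intro p hp
      unfold outerE at hout
      simp only [Bool.or_eq_true, Bool.and_eq_true, beq_iff_eq] at hout
      rcases hout with (⟨e1, e2⟩ | ⟨e1, e2⟩) | ⟨e1, e2⟩ <;> rw [e1, e2] at hp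
      · exact Or.inl hp
      · exact Or.inr (Or.inl hp)
      · exact Or.inr (Or.inr hp)
    have hmain : closure s ⊆ closure (UF f) ∪ closure Out ∪ seg f.1 f.2.1 := by
      apply merge (N := WF f) hs.pre (isOpen_UF f) isOpen_Out (isOpen_WF f) (isClosed_seg _ _)
      · intro p hp
        rcases lt_trichotomy (orR (R f.1) (R f.2.1) p) 0 with h | h | h
        · exact Or.inl (Or.inr (hOutNeg p h))
        · exact Or.inr (mem_seg_of_zero hf hp h)
        · exact Or.inl (Or.inl (mem_UF_of_pos hp h))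
      · exact hWs
      · rintro p ⟨hp, hps⟩
        rcases closure_UF_inter hf h2 h3 hp hps with h | h
        · exact Or.inl h
        · exact Or.inr (hWs ⟨h, hps⟩)
      · rintro p ⟨hp, hps⟩
        by_cases hpO : p ∈ Out
        · exact Or.inl hpO
        right
        apply hWs
        refine ⟨?_, hps⟩
        have hK := closure_Out_subset hp
        unfold Out at hpO
        simp only [Set.mem_ofPred_eq, not_or, not_lt] at hpO
        obtain ⟨o1, o2, o3⟩ := hpO
        -- `p` is on the boundary of the outer triangle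
        have h34 : adjB 3 4 = true ∧ adjB 4 17 = true ∧ adjB 17 3 = true := by decide +kernel
        have hT1 : IsFace (R 3) (R 4) (R 17) (R 17) := by
          have hl : lft 3 4 17 = true := by decide +kernel
          have hl := lft_pos hl
          exact ⟨hl, hl, (orR_right _ _).le, (orR_left _ _).le⟩
        have hpK : p ∈ K (R 3) (R 4) (R 17) (R 17) := ⟨o1, o2, o3⟩
        have fin : ∀ a b, a < 27 → b < 27 → adjB a b = true → p ∈ seg a b →
            p ∈ seg f.1 f.2.1 := by
          intro a b ha hb hab hpab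
          have := ht a b ha hb hab ⟨p, hps, hpab⟩
          rw [Sym2.eq_iff] at this
          rcases this with ⟨e1, e2⟩ | ⟨e1, e2⟩
          · rw [← e1, ← e2]; exact hpab
          · rw [← e1, ← e2, seg_comm]; exact hpab
        rcases hK with hk | hk | hk
        · exact fin 3 4 (by norm_num) (by norm_num) h34.1
            (mem_side1 hT1 hpK (le_antisymm hk o1))
        · exact fin 4 17 (by norm_num) (by norm_num) h34.2.1
            (mem_side2 hT1 hpK (le_antisymm hk o2))
        · exact fin 17 3 (by norm_num) (by norm_num) h34.2.2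
            (mem_side3 hT1 hpK (le_antisymm hk o3))
      · obtain ⟨p, hps, hp⟩ := hne
        refine ⟨p, hps, ?_⟩
        rcases hp with hp | hp | ⟨_, hp⟩
        · exact Or.inl (Or.inl hp)
        · exact Or.inr (hWs ⟨hp, hps⟩)
        · exact Or.inl (Or.inr hp)
    have hv : ∀ w, w < 27 → R w ∈ closure s → w ∈ vertsF f ++ [3, 4, 17] := by
      intro w hw hwc
      rcases hmain hwc with (h | h) | h
      · exact List.mem_append_left _ (mem_verts_of_mem_KF hf hw (closure_U_subset _ _ _ _ h))
      · exact List.mem_append_right _ (mem_outer_of_mem_KOut hw (closure_Out_subset h))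
      · apply List.mem_append_left
        apply mem_verts_of_mem_KF hf hw
        obtain ⟨s', t, hs', ht', hst, he⟩ := h
        rw [← he]
        refine ⟨?_, ?_, ?_⟩
        · rw [orR_affine _ _ _ _ _ _ hst, orR_left, orR_right]; simp
        · rw [orR_affine _ _ _ _ _ _ hst, orR_left, mul_zero, add_zero, orR_rot]
          exact mul_nonneg hs' hF.d.le
        · rw [orR_affine _ _ _ _ _ _ hst, orR_right, mul_zero, zero_add, orR_rot']
          exact mul_nonneg ht' hF.c.le
    intro w w' hw hw' hwc hwc'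
    exact clique_spec hcl (hv w hw hwc) (hv w' hw' hwc')
  · -- another face is on the other side
    rcases hopp with ⟨h, _⟩ | ⟨g, hg, h⟩
    · exact absurd h hout
    rw [Bool.and_eq_true, Bool.and_eq_true, beq_iff_eq, beq_iff_eq] at h
    obtain ⟨⟨e1, e2⟩, hcl⟩ := h
    obtain ⟨hG, b1, b2, b3⟩ := face_ok hg
    have hgl := List.all_eq_true.mp faces_lt_ok g hg
    simp only [Bool.and_eq_true, Nat.blt_eq] at hgl
    obtain ⟨⟨⟨g1, g2⟩, g3⟩, g4⟩ := hgl
    have k2 : ¬ Touches s g.2.1 g.2.2.2 := by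
      intro h
      have h5 := ht _ _ g2 g4 b2 h
      rw [Sym2.eq_iff] at h5
      have hd := hG.d
      rcases h5 with ⟨_, h6⟩ | ⟨h6, _⟩
      · rw [h6, ← e1, orR_left] at hd
        exact lt_irrefl _ hd
      · rw [e2] at h6
        exact hAB h6
    have k3 : ¬ Touches s g.2.2.1 g.1 := by
      intro h
      have h5 := ht _ _ g3 g1 b3 h
      rw [Sym2.eq_iff] at h5
      have hc := hG.c
      rcases h5 with ⟨h6, _⟩ | ⟨_, h6⟩
      · rw [h6, ← e2, orR_right] at hc
        exact lt_irrefl _ hc
      · rw [e1] at h6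
        exact hAB h6.symm
    have hsegeq : seg g.1 g.2.1 = seg f.1 f.2.1 := by rw [e1, e2, seg_comm]
    have hWs2 : seg f.1 f.2.1 ∩ s ⊆ WF g := by
      rintro p ⟨hp, hps⟩
      rw [← hsegeq] at hp
      apply seg_subset_WF hg hp
      · rintro rfl; exact hs.vert _ g1 hps
      · rintro rfl; exact hs.vert _ g2 hps
    have hmain : closure s ⊆ closure (UF f) ∪ closure (UF g) ∪ seg f.1 f.2.1 := by
      apply merge (N := WF f ∩ WF g) hs.pre (isOpen_UF f) (isOpen_UF g)
        ((isOpen_WF f).inter (isOpen_WF g)) (isClosed_seg _ _)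
      · rintro p ⟨hp, hp'⟩
        rcases lt_trichotomy (orR (R f.1) (R f.2.1) p) 0 with h | h | h
        · left; right
          apply mem_UF_of_pos hp'
          rw [e1, e2, orR_swap]
          linarith
        · exact Or.inr (mem_seg_of_zero hf hp h)
        · exact Or.inl (Or.inl (mem_UF_of_pos hp h))
      · intro p hp
        exact ⟨hWs hp, hWs2 hp⟩
      · rintro p ⟨hp, hps⟩
        rcases closure_UF_inter hf h2 h3 hp hps with h | h
        · exact Or.inl h
        · exact Or.inr ⟨hWs ⟨h, hps⟩, hWs2 ⟨h, hps⟩⟩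
      · rintro p ⟨hp, hps⟩
        rcases closure_UF_inter hg k2 k3 hp hps with h | h
        · exact Or.inl h
        · rw [hsegeq] at h
          exact Or.inr ⟨hWs ⟨h, hps⟩, hWs2 ⟨h, hps⟩⟩
      · obtain ⟨p, hps, hp⟩ := hne
        refine ⟨p, hps, ?_⟩
        rcases hp with hp | hp | ⟨hp, _⟩
        · exact Or.inl (Or.inl hp)
        · exact Or.inr ⟨hWs ⟨hp, hps⟩, hWs2 ⟨hp, hps⟩⟩
        · exact absurd hp hout
    have hv : ∀ w, w < 27 → R w ∈ closure s → w ∈ vertsF f ++ vertsF g := by
      intro w hw hwc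
      rcases hmain hwc with (h | h) | h
      · exact List.mem_append_left _ (mem_verts_of_mem_KF hf hw (closure_U_subset _ _ _ _ h))
      · exact List.mem_append_right _ (mem_verts_of_mem_KF hg hw (closure_U_subset _ _ _ _ h))
      · apply List.mem_append_left
        apply mem_verts_of_mem_KF hf hw
        obtain ⟨s', t, hs', ht', hst, he⟩ := h
        rw [← he]
        refine ⟨?_, ?_, ?_⟩
        · rw [orR_affine _ _ _ _ _ _ hst, orR_left, orR_right]; simp
        · rw [orR_affine _ _ _ _ _ _ hst, orR_left, mul_zero, add_zero, orR_rot]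
          exact mul_nonneg hs' hF.d.le
        · rw [orR_affine _ _ _ _ _ _ hst, orR_right, mul_zero, zero_add, orR_rot']
          exact mul_nonneg ht' hF.c.le
    intro w w' hw hw' hwc hwc'
    exact clique_spec hcl (hv w hw hwc) (hv w' hw' hwc')

end Pool.Agent.Helper29.OnePlane
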