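import Mathlib
import Pool.Agent.Helper29.OnePlane.Region

set_option autoImplicit false

namespace Pool.Agent.Helper29.OnePlane

lemma orR_seg_zero {A B p : ℝ × ℝ} (hp : p ∈ segment ℝ A B) : orR A B p = 0 := by
  obtain ⟨s, t, hs, ht, hst, rfl⟩ := hp
  rw [orR_affine _ _ _ _ _ _ hst, orR_left, orR_right]
  simp

lemma orR_seg_pos {A B C D p : ℝ × ℝ} (hC : 0 < orR A B C) (hD : 0 < orR A B D)
    (hp : p ∈ segment ℝ C D) : 0 < orR A B p := by
  obtain ⟨s, t, hs, ht, hst, rfl⟩ := hp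
  rw [orR_affine _ _ _ _ _ _ hst]
  rcases hs.eq_or_lt with h | h
  · have : t = 1 := by linarith
    rw [← h, this]; simpa using hD
  · have h1 := mul_pos h hC
    have h2 := mul_nonneg ht hD.le
    linarith

lemma share {X Y Z p : ℝ × ℝ} (h : orR X Y Z ≠ 0) (h1 : p ∈ segment ℝ X Y)
    (h2 : p ∈ segment ℝ X Z) : p = X := by
  have h3 := orR_seg_zero h2
  obtain ⟨s, t, hs, ht, hst, rfl⟩ := h1
  rw [orR_affine _ _ _ _ _ _ hst, orR_left, mul_zero, zero_add] at h3
  rcases mul_eq_zero.mp h3 with h4 | h4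
  · have : s = 1 := by linarith
    rw [h4, this]; simp
  · exfalso
    apply h
    have : orR X Z Y = - orR X Y Z := by unfold orR; ring
    rw [this] at h4
    linarith

/-- The diagonals of a quarter face meet in a point. -/
lemma cross_exists {A B C D : ℝ × ℝ} (hF : IsFace A B C D) (h1 : orR B D C < 0) :
    ∃ x, x ∈ segment ℝ B D ∧ x ∈ segment ℝ C A ∧ orR B D x = 0 ∧ orR C A x = 0 := by
  have hBDA : 0 < orR B D A := by rw [orR_rot]; exact hF.d
  have hden : 0 < orR B D A - orR B D C := by linarith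
  set t := orR B D A / (orR B D A - orR B D C) with ht
  have ht0 : 0 ≤ t := div_nonneg hBDA.le hden.le
  have ht1 : t ≤ 1 := by
    rw [ht, div_le_one hden]
    linarith
  set x := (1 - t) • A + t • C with hx
  have e0 : (1 - t) + t = 1 := by ring
  have x1 : orR C A x = 0 := by
    rw [hx, orR_affine _ _ _ _ _ _ e0, orR_right, orR_left]; simp
  have x2 : orR B D x = 0 := by
    rw [hx, orR_affine _ _ _ _ _ _ e0, ht]
    field_simp
    ring
  have x3 : 0 ≤ orR A B x := by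
    rw [hx, orR_affine _ _ _ _ _ _ e0, orR_left, mul_zero, zero_add]
    exact mul_nonneg ht0 hF.c.le
  have hxK : x ∈ K A B C D := ⟨x3, x2.ge, x1.ge⟩
  exact ⟨x, mem_side2 hF hxK x2, mem_side3 hF hxK x1, x2, x1⟩

/-- general position: an edge contains no vertex except its ends -/
lemma vertex_on_line {a b w : ℕ} (he : (a, b) ∈ edgesL) (hw : w < 27)
    (h : orR (R a) (R b) (R w) = 0) : w = a ∨ w = b := by
  have h1 := List.all_eq_true.mp edges_gen_ok (a, b) he
  unfold edgeGenOK at h1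
  have h2 := List.all_eq_true.mp h1 w (List.mem_range.mpr hw)
  simp only [Bool.or_eq_true, beq_iff_eq] at h2
  rcases h2 with ((h2 | h2) | h2) | h2
  · exact Or.inl h2
  · exact Or.inr h2
  · have := lft_pos h2
    linarith
  · have := lft_pos h2
    rw [orR_swap] at this
    linarith

lemma edge_of_adj {a b : ℕ} (ha : a < 27) (hb : b < 27) (h : adjB a b = true) :
    (a, b) ∈ edgesL ∨ (b, a) ∈ edgesL := by
  have h1 := List.all_eq_true.mp adj_edges_ok a (List.mem_range.mpr ha)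
  have h2 := List.all_eq_true.mp h1 b (List.mem_range.mpr hb)
  rw [h, beq_iff_eq] at h2
  have h3 := h2.symm
  simpa using h3

lemma vertex_on_line' {a b w : ℕ} (ha : a < 27) (hb : b < 27) (hab : adjB a b = true)
    (hw : w < 27) (h : orR (R a) (R b) (R w) = 0) : w = a ∨ w = b := by
  rcases edge_of_adj ha hb hab with he | he
  · exact vertex_on_line he hw h
  · exact (vertex_on_line he hw (by rw [orR_swap]; linarith)).symm

/-- In a quarter face the two diagonals cross at a point that is not a vertex. -/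
lemma quarter_cross {f : ℕ × ℕ × ℕ × ℕ} (hf : f ∈ facesL) (hcd : f.2.2.1 ≠ f.2.2.2) :
    ∃ x, x ∈ seg f.2.1 f.2.2.2 ∧ x ∈ seg f.2.2.1 f.1 ∧ (∀ w, w < 27 → x ≠ R w) ∧
      s(f.2.1, f.2.2.2) ≠ s(f.2.2.1, f.1) := by
  obtain ⟨hF, a1, a2, a3⟩ := face_ok hf
  have hlt := List.all_eq_true.mp faces_lt_ok f hf
  simp only [Bool.and_eq_true, Nat.blt_eq] at hlt
  obtain ⟨⟨⟨l1, l2⟩, l3⟩, l4⟩ := hlt
  have hst := List.all_eq_true.mp faces_strict_ok f hf
  simp only [Bool.or_eq_true, beq_iff_eq, Bool.and_eq_true] at hst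
  rcases hst with hst | ⟨h1, h2⟩
  · exact absurd hst hcd
  have h1 := lft_pos h1
  have h2 := lft_pos h2
  rw [orR_swap] at h1 h2
  obtain ⟨x, x1, x2, x3, x4⟩ := cross_exists hF (by linarith)
  have hBDA : 0 < orR (R f.2.1) (R f.2.2.2) (R f.1) := by rw [orR_rot]; exact hF.d
  refine ⟨x, x1, x2, ?_, ?_⟩
  · rintro w hw rfl
    rcases vertex_on_line' l3 l1 a3 hw x4 with h | h
    · rw [h] at x3; linarith
    · rw [h] at x3; linarith
  · intro h
    rw [Sym2.eq_iff] at h
    rcases h with ⟨h, _⟩ | ⟨h, _⟩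
    · rw [← h, orR_left] at h1; linarith
    · rw [← h, orR_left] at hBDA; linarith

/-- The situation of a new arc. -/
structure NewArc (s : Set (ℝ × ℝ)) : Prop extends Cut s where
  /-- at most one edge is touched -/
  one : ∀ a b c d, a < 27 → b < 27 → c < 27 → d < 27 → adjB a b = true → adjB c d = true →
    Touches s a b → Touches s c d → s(a, b) = s(c, d)
  /-- a touched edge is not crossed by another edge -/
  free : ∀ a b c d, a < 27 → b < 27 → c < 27 → d < 27 → adjB a b = true → adjB c d = true →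
    Touches s a b → s(a, b) ≠ s(c, d) → ∀ x, x ∈ seg a b → x ∈ seg c d → ∃ w, w < 27 ∧ x = R w

/-- the second side of a face is touched -/
lemma case_second {s : Set (ℝ × ℝ)} (hs : NewArc s) {f : ℕ × ℕ × ℕ × ℕ} (hf : f ∈ facesL)
    (ht : Touches s f.2.1 f.2.2.2) : Concl s := by
  obtain ⟨hF, a1, a2, a3⟩ := face_ok hf
  have hlt := List.all_eq_true.mp faces_lt_ok f hf
  simp only [Bool.and_eq_true, Nat.blt_eq] at hlt
  obtain ⟨⟨⟨l1, l2⟩, l3⟩, l4⟩ := hlt
  by_cases hcd : f.2.2.1 = f.2.2.2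
  · have hrot := List.all_eq_true.mp faces_rot_ok f hf
    unfold faceRotOK at hrot
    simp only [Bool.or_eq_true, Bool.not_eq_true', beq_eq_false_iff_ne, Bool.and_eq_true] at hrot
    rcases hrot with h | ⟨h, _⟩
    · exact absurd hcd h
    · have hg := List.contains_iff_mem.mp h
      apply case_side hs.toCut hg
      · intro a b ha hb hab htab
        have := hs.one a b f.2.1 f.2.2.2 ha hb l2 l4 hab a2 htab ht
        rw [this, hcd]
      · obtain ⟨p, hps, hp⟩ := ht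
        refine ⟨p, hps, Or.inr (Or.inl ?_)⟩
        rw [hcd]; exact hp
  · exfalso
    obtain ⟨x, x1, x2, x3, x4⟩ := quarter_cross hf hcd
    obtain ⟨w, hw, hxw⟩ := hs.free _ _ _ _ l2 l4 l3 l1 a2 a3 ht x4 x x1 x2
    exact x3 w hw hxw

/-- the third side of a face is touched -/
lemma case_third {s : Set (ℝ × ℝ)} (hs : NewArc s) {f : ℕ × ℕ × ℕ × ℕ} (hf : f ∈ facesL)
    (ht : Touches s f.2.2.1 f.1) : Concl s := by
  obtain ⟨hF, a1, a2, a3⟩ := face_ok hf
  have hlt := List.all_eq_true.mp faces_lt_ok f hf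
  simp only [Bool.and_eq_true, Nat.blt_eq] at hlt
  obtain ⟨⟨⟨l1, l2⟩, l3⟩, l4⟩ := hlt
  by_cases hcd : f.2.2.1 = f.2.2.2
  · have hrot := List.all_eq_true.mp faces_rot_ok f hf
    unfold faceRotOK at hrot
    simp only [Bool.or_eq_true, Bool.not_eq_true', beq_eq_false_iff_ne, Bool.and_eq_true] at hrot
    rcases hrot with h | ⟨_, h⟩
    · exact absurd hcd h
    · have hg := List.contains_iff_mem.mp h
      apply case_side hs.toCut hg
      · intro a b ha hb hab htab
        exact hs.one a b f.2.2.1 f.1 ha hb l3 l1 hab a3 htab ht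
      · obtain ⟨p, hps, hp⟩ := ht
        exact ⟨p, hps, Or.inr (Or.inl hp)⟩
  · exfalso
    obtain ⟨x, x1, x2, x3, x4⟩ := quarter_cross hf hcd
    obtain ⟨w, hw, hxw⟩ := hs.free _ _ _ _ l3 l1 l2 l4 a3 a2 ht x4.symm x x2 x1
    exact x3 w hw hxw

/-- the first side of a face is touched -/
lemma case_first {s : Set (ℝ × ℝ)} (hs : NewArc s) {f : ℕ × ℕ × ℕ × ℕ} (hf : f ∈ facesL)
    (ht : Touches s f.1 f.2.1) : Concl s := by
  obtain ⟨hF, a1, a2, a3⟩ := face_ok hf
  have hlt := List.all_eq_true.mp faces_lt_ok f hf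
  simp only [Bool.and_eq_true, Nat.blt_eq] at hlt
  obtain ⟨⟨⟨l1, l2⟩, l3⟩, l4⟩ := hlt
  apply case_side hs.toCut hf
  · intro a b ha hb hab htab
    exact hs.one a b f.1 f.2.1 ha hb l1 l2 hab a1 htab ht
  · obtain ⟨p, hps, hp⟩ := ht
    exact ⟨p, hps, Or.inr (Or.inl hp)⟩

/-- `s` meets a closed face -/
lemma case_KF {s : Set (ℝ × ℝ)} (hs : NewArc s) {f : ℕ × ℕ × ℕ × ℕ} (hf : f ∈ facesL)
    {p : ℝ × ℝ} (hps : p ∈ s) (hp : p ∈ KF f) : Concl s := by
  by_cases h1 : Touches s f.1 f.2.1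
  · exact case_first hs hf h1
  by_cases h2 : Touches s f.2.1 f.2.2.2
  · exact case_second hs hf h2
  by_cases h3 : Touches s f.2.2.1 f.1
  · exact case_third hs hf h3
  apply case_face hs.toCut hf h1 h2 h3
  refine ⟨p, hps, ?_⟩
  rcases mem_U_or_side (face_ok hf).1 hp with h | h | h | h
  · exact h
  · exact absurd ⟨p, hps, h⟩ h1
  · exact absurd ⟨p, hps, h⟩ h2
  · exact absurd ⟨p, hps, h⟩ h3

lemma outer_face {a b : ℕ} (h : (a = 3 ∧ b = 4) ∨ (a = 4 ∧ b = 17) ∨ (a = 17 ∧ b = 3)) :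
    ∃ f ∈ facesL, f.1 = a ∧ f.2.1 = b ∧ outerE f.1 f.2.1 = true := by
  have h1 := outer_faces_ok
  simp only [Bool.and_eq_true, List.any_eq_true, beq_iff_eq] at h1
  obtain ⟨⟨⟨f1, hf1, a1, b1⟩, ⟨f2, hf2, a2, b2⟩⟩, ⟨f3, hf3, a3, b3⟩⟩ := h1
  rcases h with ⟨e1, e2⟩ | ⟨e1, e2⟩ | ⟨e1, e2⟩
  · exact ⟨f1, hf1, by rw [a1, e1], by rw [b1, e2], by rw [a1, b1]; decide⟩
  · exact ⟨f2, hf2, by rw [a2, e1], by rw [b2, e2], by rw [a2, b2]; decide⟩
  · exact ⟨f3, hf3, by rw [a3, e1], by rw [b3, e2], by rw [a3, b3]; decide⟩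

/-- `s` meets the outer region -/
lemma case_Out {s : Set (ℝ × ℝ)} (hs : NewArc s) {p : ℝ × ℝ} (hps : p ∈ s) (hp : p ∈ Out) :
    Concl s := by
  have side : ∀ a b, ((a = 3 ∧ b = 4) ∨ (a = 4 ∧ b = 17) ∨ (a = 17 ∧ b = 3)) →
      Touches s a b → Concl s := by
    intro a b hab ht
    obtain ⟨f, hf, e1, e2, _⟩ := outer_face hab
    apply case_first hs hf
    rw [e1, e2]; exact ht
  by_cases h1 : Touches s 3 4
  · exact side 3 4 (by simp) h1
  by_cases h2 : Touches s 4 17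
  · exact side 4 17 (by simp) h2
  by_cases h3 : Touches s 17 3
  · exact side 17 3 (by simp) h3
  have hsub : s ⊆ Out := by
    apply hs.pre.subset_of_closure_inter_subset isOpen_Out ⟨p, hps, hp⟩
    rintro q ⟨hq, hqs⟩
    by_contra hqO
    have hK := closure_Out_subset hq
    unfold Out at hqO
    simp only [Set.mem_ofPred_eq, not_or, not_lt] at hqO
    obtain ⟨o1, o2, o3⟩ := hqO
    have hT1 : IsFace (R 3) (R 4) (R 17) (R 17) := by
      have hl : lft 3 4 17 = true := by decide +kernel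
      have hl := lft_pos hl
      exact ⟨hl, hl, (orR_right _ _).le, (orR_left _ _).le⟩
    have hpK : q ∈ K (R 3) (R 4) (R 17) (R 17) := ⟨o1, o2, o3⟩
    rcases hK with hk | hk | hk
    · exact h1 ⟨q, hqs, mem_side1 hT1 hpK (le_antisymm hk o1)⟩
    · exact h2 ⟨q, hqs, mem_side2 hT1 hpK (le_antisymm hk o2)⟩
    · exact h3 ⟨q, hqs, mem_side3 hT1 hpK (le_antisymm hk o3)⟩
  intro w w' hw hw' hwc hwc'
  have hcl := (closure_mono hsub).trans closure_Out_subset
  have m1 := mem_outer_of_mem_KOut hw (hcl hwc)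
  have m2 := mem_outer_of_mem_KOut hw' (hcl hwc')
  have hc : clique [3, 4, 17] [3, 4, 17] = true := by decide +kernel
  exact clique_spec hc m1 m2

end Pool.Agent.Helper29.OnePlane
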