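import Mathlib

set_option autoImplicit false

/-!
# 1-plane graphs

Drawings of finite simple graphs in the plane `ℝ × ℝ` by Jordan arcs, 1-plane drawings, maximal
1-plane graphs, crossing points and vertex connectivity.
-/

namespace Pool.Agent.Helper29.OnePlane

/-- `A` is a Jordan arc joining the points `p` and `q`: the image of an injective continuous map
from the unit interval to the plane that starts at `p` and ends at `q`. -/
def IsJordanArc (A : Set (ℝ × ℝ)) (p q : ℝ × ℝ) : Prop :=
  ∃ f : unitInterval → ℝ × ℝ, Continuous f ∧ Function.Injective f ∧ f 0 = p ∧ f 1 = q ∧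
    Set.range f = A

/-- The arcs of `e` and `f` cross: they have a common point that is not (the point of) a vertex. -/
def Crosses {V : Type} (pos : V → ℝ × ℝ) (arc : Sym2 V → Set (ℝ × ℝ)) (e f : Sym2 V) : Prop :=
  ∃ p, p ∈ arc e ∧ p ∈ arc f ∧ p ∉ Set.range pos

/-- `(pos, arc)` is a 1-plane drawing of `G`: the vertices are distinct points, every edge is a
Jordan arc joining its ends, no arc passes through a vertex other than its ends, and every edge is
crossed by at most one other edge. -/
structure IsOnePlane {V : Type} (G : SimpleGraph V) (pos : V → ℝ × ℝ)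
    (arc : Sym2 V → Set (ℝ × ℝ)) : Prop where
  /-- vertices are distinct points -/
  pos_injective : Function.Injective pos
  /-- edges are Jordan arcs joining their end vertices -/
  isJordanArc : ∀ u v, G.Adj u v → IsJordanArc (arc s(u, v)) (pos u) (pos v)
  /-- no arc passes through a vertex other than its ends -/
  eq_or_eq_of_mem : ∀ u v w, G.Adj u v → pos w ∈ arc s(u, v) → w = u ∨ w = v
  /-- each edge is crossed by at most one other edge -/
  crossed_at_most_once : ∀ e ∈ G.edgeSet, ∀ f ∈ G.edgeSet, ∀ g ∈ G.edgeSet, f ≠ e → g ≠ e →
    Crosses pos arc e f → Crosses pos arc e g → f = g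

/-- The 1-plane graph is maximal: for every pair of distinct non-adjacent vertices `u, v` there is
no 1-plane drawing of `G + uv` with the same vertex points in which every edge of `G` has the same
arc as before, that is, no arc joining `u` and `v` can be added to the given drawing so that the
result is again a 1-plane graph. -/
def IsMaximalOnePlane {V : Type} (G : SimpleGraph V) (pos : V → ℝ × ℝ)
    (arc : Sym2 V → Set (ℝ × ℝ)) : Prop :=
  IsOnePlane G pos arc ∧ ∀ u v : V, u ≠ v → ¬ G.Adj u v →
    ∀ arc' : Sym2 V → Set (ℝ × ℝ), (∀ e ∈ G.edgeSet, arc' e = arc e) →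
      ¬ IsOnePlane (G ⊔ SimpleGraph.edge u v) pos arc'

/-- The set of crossing points of the drawing. -/
def crossingPoints {V : Type} (G : SimpleGraph V) (pos : V → ℝ × ℝ)
    (arc : Sym2 V → Set (ℝ × ℝ)) : Set (ℝ × ℝ) :=
  {p | p ∉ Set.range pos ∧ ∃ e ∈ G.edgeSet, ∃ f ∈ G.edgeSet, e ≠ f ∧ p ∈ arc e ∧ p ∈ arc f}

/-- The vertex connectivity of `G` is exactly `k` (for a graph with more than `k + 1` vertices
that has a separating set of size `k`): deleting fewer than `k` vertices leaves a connected graph,
and deleting some `k` vertices leaves a disconnected one. -/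
def HasVertexConnectivity {V : Type} (G : SimpleGraph V) (k : ℕ) : Prop :=
  (∀ S : Finset V, S.card < k → (G.induce {v | v ∉ S}).Connected) ∧
    ∃ S : Finset V, S.card = k ∧ ¬ (G.induce {v | v ∉ S}).Preconnected

end Pool.Agent.Helper29.OnePlane
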