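import Mathlib
import Pool.Agent.Helper29.OnePlane.Defs
import Pool.Agent.Helper29.OnePlane.Cases

set_option autoImplicit false

namespace Pool.Agent.Helper29.OnePlane

lemma adjB_symm {a b : ℕ} (ha : a < 27) (hb : b < 27) (h : adjB a b = true) :
    adjB b a = true := by
  have h1 := List.all_eq_true.mp adj_edges_ok b (List.mem_range.mpr hb)
  have h2 := List.all_eq_true.mp h1 a (List.mem_range.mpr ha)
  rw [beq_iff_eq] at h2
  rw [h2, Bool.or_eq_true, List.contains_iff_mem, List.contains_iff_mem]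
  exact (edge_of_adj ha hb h).symm

lemma adjB_irrefl {a : ℕ} (ha : a < 27) : adjB a a = false := by
  have h1 := List.all_eq_true.mp no_loop_ok a (List.mem_range.mpr ha)
  simpa using h1

/-- The graph of the example. -/
def G27 : SimpleGraph (Fin 27) where
  Adj i j := adjB i.val j.val = true
  symm := ⟨fun i j h => adjB_symm i.isLt j.isLt h⟩
  loopless := ⟨fun i h => by rw [adjB_irrefl i.isLt] at h; exact Bool.false_ne_true h⟩

/-- The points of the vertices. -/
noncomputable def pos27 (i : Fin 27) : ℝ × ℝ := R i.val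

/-- The straight-line arcs of the edges. -/
noncomputable def arc27 : Sym2 (Fin 27) → Set (ℝ × ℝ) :=
  Sym2.lift ⟨fun u v => segment ℝ (pos27 u) (pos27 v), fun _ _ => segment_symm ℝ _ _⟩

lemma arc27_mk (u v : Fin 27) : arc27 s(u, v) = seg u.val v.val := rfl

lemma R_injective {a b : ℕ} (ha : a < 27) (hb : b < 27) (h : R a = R b) : a = b := by
  have h1 := List.all_eq_true.mp pos_inj_ok a (List.mem_range.mpr ha)
  have h2 := List.all_eq_true.mp h1 b (List.mem_range.mpr hb)
  unfold R at h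
  rw [Prod.mk.injEq] at h
  obtain ⟨e1, e2⟩ := h
  have e1 : cx a = cx b := by exact_mod_cast e1
  have e2 : cy a = cy b := by exact_mod_cast e2
  rw [e1, e2] at h2
  simpa using h2

lemma pos27_injective : Function.Injective pos27 := by
  intro a b h
  exact Fin.ext (R_injective a.isLt b.isLt h)

lemma isJordanArc_segment {p q : ℝ × ℝ} (h : p ≠ q) : IsJordanArc (segment ℝ p q) p q := by
  refine ⟨fun t => AffineMap.lineMap p q (t : ℝ), ?_, ?_, ?_, ?_, ?_⟩
  · exact AffineMap.lineMap_continuous.comp continuous_subtype_val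
  · intro s t hst
    exact Subtype.ext (AffineMap.lineMap_injective ℝ h hst)
  · simp
  · simp
  · rw [segment_eq_image_lineMap]
    ext x
    simp only [Set.mem_range, Set.mem_image, Subtype.exists, exists_prop]

lemma noCross_spec {e f : ℕ × ℕ} (he : e ∈ edgesL) (hf : f ∈ edgesL) (h : noCross e f = true)
    {p : ℝ × ℝ} (h1 : p ∈ seg e.1 e.2) (h2 : p ∈ seg f.1 f.2) : ∃ w, w < 27 ∧ p = R w := by
  have hle := List.all_eq_true.mp edges_lt_ok e he
  have hlf := List.all_eq_true.mp edges_lt_ok f hf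
  simp only [Bool.and_eq_true, Nat.blt_eq] at hle hlf
  obtain ⟨⟨l1, l2⟩, _⟩ := hle
  obtain ⟨⟨m1, m2⟩, _⟩ := hlf
  have ne : ∀ a b c, (lft a b c || lft b a c) = true → orR (R a) (R b) (R c) ≠ 0 := by
    intro a b c habc
    rw [Bool.or_eq_true] at habc
    rcases habc with h | h
    · exact (lft_pos h).ne'
    · have := lft_pos h
      rw [orR_swap] at this
      intro h0
      rw [h0] at this
      simp at this
  have ne' : ∀ a b c, (lft a b c || lft b a c) = true → orR (R b) (R a) (R c) ≠ 0 := by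
    intro a b c habc h0
    apply ne a b c habc
    rw [orR_swap, h0, neg_zero]
  unfold noCross at h
  simp only [beq_iff_eq] at h
  split_ifs at h with c1 c2 c3 c4
  · refine ⟨e.1, l1, share (ne _ _ _ h) h1 ?_⟩
    rw [c1]; exact h2
  · refine ⟨e.1, l1, share (ne _ _ _ h) h1 ?_⟩
    rw [c2]
    unfold seg at h2
    rw [segment_symm]; exact h2
  · refine ⟨e.2, l2, share (ne' _ _ _ h) ?_ ?_⟩
    · unfold seg at h1; rw [segment_symm]; exact h1
    · rw [c3]; exact h2
  · refine ⟨e.2, l2, share (ne' _ _ _ h) ?_ ?_⟩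
    · unfold seg at h1; rw [segment_symm]; exact h1
    · rw [c4]; unfold seg at h2; rw [segment_symm]; exact h2
  · exfalso
    unfold separated at h
    simp only [Bool.or_eq_true, Bool.and_eq_true] at h
    have z1 := orR_seg_zero h1
    have z2 := orR_seg_zero h2
    rcases h with ((⟨a, b⟩ | ⟨a, b⟩) | ⟨a, b⟩) | ⟨a, b⟩
    · have := orR_seg_pos (lft_pos a) (lft_pos b) h2
      linarith
    · have := orR_seg_pos (lft_pos a) (lft_pos b) h2
      rw [orR_swap] at this
      linarith
    · have := orR_seg_pos (lft_pos a) (lft_pos b) h1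
      linarith
    · have := orR_seg_pos (lft_pos a) (lft_pos b) h1
      rw [orR_swap] at this
      linarith

/-- normal form of an edge -/
lemma edge_normal (u v : Fin 27) (h : G27.Adj u v) :
    ∃ e ∈ edgesL, s(u.val, v.val) = s(e.1, e.2) := by
  rcases edge_of_adj u.isLt v.isLt h with he | he
  · exact ⟨_, he, rfl⟩
  · exact ⟨_, he, Sym2.eq_swap⟩

lemma seg_congr {a b c d : ℕ} (h : s(a, b) = s(c, d)) : seg a b = seg c d := by
  rw [Sym2.eq_iff] at h
  rcases h with ⟨rfl, rfl⟩ | ⟨rfl, rfl⟩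
  · rfl
  · exact seg_comm _ _

/-- Every edge of `G27` corresponds to a list entry. -/
lemma edge_list {e : Sym2 (Fin 27)} (he : e ∈ G27.edgeSet) :
    ∃ x ∈ edgesL, arc27 e = seg x.1 x.2 ∧ Sym2.map Fin.val e = s(x.1, x.2) := by
  induction e using Sym2.ind with
  | _ u v =>
    rw [SimpleGraph.mem_edgeSet] at he
    obtain ⟨x, hx, hs⟩ := edge_normal u v he
    refine ⟨x, hx, ?_, ?_⟩
    · rw [arc27_mk]; exact seg_congr hs
    · rw [Sym2.map_mk]; exact hs

lemma not_vertex {p : ℝ × ℝ} (hp : p ∉ Set.range pos27) : ¬ ∃ w, w < 27 ∧ p = R w := by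
  rintro ⟨w, hw, rfl⟩
  exact hp ⟨⟨w, hw⟩, rfl⟩

lemma map_val_injective : Function.Injective (Sym2.map (Fin.val : Fin 27 → ℕ)) :=
  Sym2.map.injective Fin.val_injective

lemma crossed_once {e f g : Sym2 (Fin 27)} (he : e ∈ G27.edgeSet) (hf : f ∈ G27.edgeSet)
    (hg : g ∈ G27.edgeSet) (hfe : f ≠ e) (hge : g ≠ e) (h1 : Crosses pos27 arc27 e f)
    (h2 : Crosses pos27 arc27 e g) : f = g := by
  obtain ⟨x, hx, xa, xs⟩ := edge_list he
  obtain ⟨y, hy, ya, ys⟩ := edge_list hf
  obtain ⟨z, hz, za, zs⟩ := edge_list hg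
  obtain ⟨p, p1, p2, p3⟩ := h1
  obtain ⟨q, q1, q2, q3⟩ := h2
  have hpart := List.all_eq_true.mp partner_ok x hx
  rw [Nat.ble_eq] at hpart
  have hxy : x ≠ y := by
    rintro rfl
    exact hfe (map_val_injective (by rw [ys, xs]))
  have hxz : x ≠ z := by
    rintro rfl
    exact hge (map_val_injective (by rw [zs, xs]))
  have my : y ∈ edgesL.filter (fun f => !(x == f) && !(noCross x f)) := by
    rw [List.mem_filter]
    refine ⟨hy, ?_⟩
    have h3 : noCross x y = false := by
      by_contra hcon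
      have hcon : noCross x y = true := by simpa using hcon
      rw [xa] at p1; rw [ya] at p2
      exact not_vertex p3 (noCross_spec hx hy hcon p1 p2)
    rw [h3]
    simpa using hxy
  have mz : z ∈ edgesL.filter (fun f => !(x == f) && !(noCross x f)) := by
    rw [List.mem_filter]
    refine ⟨hz, ?_⟩
    have h3 : noCross x z = false := by
      by_contra hcon
      have hcon : noCross x z = true := by simpa using hcon
      rw [xa] at q1; rw [za] at q2
      exact not_vertex q3 (noCross_spec hx hz hcon q1 q2)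
    rw [h3]
    simpa using hxz
  have hyz : y = z := by
    rcases hl : edgesL.filter (fun f => !(x == f) && !(noCross x f)) with _ | ⟨c, l⟩
    · rw [hl] at my; simp at my
    · rw [hl] at my mz hpart
      have : l = [] := by
        rcases l with _ | ⟨c', l⟩
        · rfl
        · simp at hpart
      rw [this] at my mz
      simp only [List.mem_singleton] at my mz
      rw [my, mz]
  apply map_val_injective
  rw [ys, zs, hyz]

theorem isOnePlane27 : IsOnePlane G27 pos27 arc27 where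
  pos_injective := pos27_injective
  isJordanArc u v h := by
    rw [arc27_mk]
    apply isJordanArc_segment
    intro he
    exact h.ne (pos27_injective he)
  eq_or_eq_of_mem u v w h hw := by
    rw [arc27_mk] at hw
    have h0 : orR (R u.val) (R v.val) (R w.val) = 0 := orR_seg_zero hw
    rcases vertex_on_line' u.isLt v.isLt h w.isLt h0 with h1 | h1
    · exact Or.inl (Fin.ext h1)
    · exact Or.inr (Fin.ext h1)
  crossed_at_most_once e he f hf g hg hfe hge h1 h2 := crossed_once he hf hg hfe hge h1 h2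

/-- No arc can be added. -/
lemma no_new_arc (u v : Fin 27) (huv : u ≠ v) (hadj : ¬ G27.Adj u v)
    (arc' : Sym2 (Fin 27) → Set (ℝ × ℝ)) (harcold : ∀ f ∈ G27.edgeSet, arc' f = arc27 f)
    (hone : IsOnePlane (G27 ⊔ SimpleGraph.edge u v) pos27 arc') : False := by
  have hAdj' : (G27 ⊔ SimpleGraph.edge u v).Adj u v := by
    rw [SimpleGraph.sup_adj]
    right
    rw [SimpleGraph.edge_adj]
    exact ⟨Or.inl ⟨rfl, rfl⟩, huv⟩
  obtain ⟨A, hA⟩ : ∃ A, arc' s(u, v) = A := ⟨_, rfl⟩
  obtain ⟨γ, hc, hinj, h0, h1, hrange⟩ := hone.isJordanArc u v hAdj'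
  rw [hA] at hrange
  set s : Set (ℝ × ℝ) := γ '' {t | t ≠ 0 ∧ t ≠ 1} with hs
  have hsA : s ⊆ A := by
    rintro _ ⟨t, _, rfl⟩
    rw [← hrange]; exact ⟨t, rfl⟩
  have hnv : ∀ p ∈ s, p ∉ Set.range pos27 := by
    rintro _ ⟨t, ⟨ht0, ht1⟩, rfl⟩ ⟨w, hw⟩
    have hmem : pos27 w ∈ arc' s(u, v) := by
      rw [hA, ← hrange, hw]; exact ⟨t, rfl⟩
    rcases hone.eq_or_eq_of_mem u v w hAdj' hmem with h | h
    · rw [h] at hw
      exact ht0 (hinj (by rw [← hw, h0]))
    · rw [h] at hw
      exact ht1 (hinj (by rw [← hw, h1]))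
  have hpre : IsPreconnected s := by
    apply IsPreconnected.image _ _ hc.continuousOn
    have : {t : unitInterval | t ≠ 0 ∧ t ≠ 1} = Set.Ioo 0 1 := by
      ext t
      simp only [Set.mem_ofPred_eq, Set.mem_Ioo]
      constructor
      · rintro ⟨a, b⟩
        exact ⟨lt_of_le_of_ne t.2.1 (fun h => a h.symm), lt_of_le_of_ne t.2.2 (fun h => b h)⟩
      · rintro ⟨a, b⟩
        exact ⟨a.ne', b.ne⟩
    rw [this]
    exact isPreconnected_Ioo
  -- edges of the graph other than the new one keep their arcs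
  have hold : ∀ f ∈ G27.edgeSet, f ≠ s(u, v) := by
    rintro f hf rfl
    exact hadj hf
  have hG' : ∀ f ∈ G27.edgeSet, f ∈ (G27 ⊔ SimpleGraph.edge u v).edgeSet := by
    intro f hf
    rw [SimpleGraph.edgeSet_sup]
    exact Or.inl hf
  have hnew : s(u, v) ∈ (G27 ⊔ SimpleGraph.edge u v).edgeSet := hAdj'
  have htouch : ∀ a b (ha : a < 27) (hb : b < 27), adjB a b = true → Touches s a b →
      Crosses pos27 arc' s(u, v) s(⟨a, ha⟩, ⟨b, hb⟩) := by
    rintro a b ha hb hab ⟨p, hps, hp⟩
    refine ⟨p, ?_, ?_, hnv p hps⟩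
    · rw [hA]; exact hsA hps
    · rw [harcold _ (show s(⟨a, ha⟩, ⟨b, hb⟩) ∈ G27.edgeSet from hab)]
      exact hp
  have hconv : ∀ a b c d (ha : a < 27) (hb : b < 27) (hc : c < 27) (hd : d < 27),
      (s(⟨a, ha⟩, ⟨b, hb⟩) : Sym2 (Fin 27)) = s(⟨c, hc⟩, ⟨d, hd⟩) ↔ s(a, b) = s(c, d) := by
    intro a b c d ha hb hc hd
    rw [Sym2.eq_iff, Sym2.eq_iff]
    simp only [Fin.mk.injEq]
  have hnewarc : NewArc s := by
    refine ⟨⟨hpre, ?_⟩, ?_, ?_⟩
    · intro w hw hws
      exact hnv _ hws ⟨⟨w, hw⟩, rfl⟩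
    · intro a b c d ha hb hc' hd hab hcd t1 t2
      rw [← hconv a b c d ha hb hc' hd]
      have e1 : s(⟨a, ha⟩, ⟨b, hb⟩) ∈ G27.edgeSet := hab
      have e2 : s(⟨c, hc'⟩, ⟨d, hd⟩) ∈ G27.edgeSet := hcd
      exact hone.crossed_at_most_once s(u, v) hnew _ (hG' _ e1) _ (hG' _ e2) (hold _ e1)
        (hold _ e2) (htouch a b ha hb hab t1) (htouch c d hc' hd hcd t2)
    · intro a b c d ha hb hc' hd hab hcd t1 hne x x1 x2
      by_contra hcon
      have e1 : s(⟨a, ha⟩, ⟨b, hb⟩) ∈ G27.edgeSet := hab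
      have e2 : s(⟨c, hc'⟩, ⟨d, hd⟩) ∈ G27.edgeSet := hcd
      have hx : x ∉ Set.range pos27 := by
        rintro ⟨w, rfl⟩
        exact hcon ⟨w.val, w.isLt, rfl⟩
      have cr1 : Crosses pos27 arc' s(⟨a, ha⟩, ⟨b, hb⟩) s(u, v) := by
        obtain ⟨p, p1, p2, p3⟩ := htouch a b ha hb hab t1
        exact ⟨p, p2, p1, p3⟩
      have cr2 : Crosses pos27 arc' s(⟨a, ha⟩, ⟨b, hb⟩) s(⟨c, hc'⟩, ⟨d, hd⟩) := by
        refine ⟨x, ?_, ?_, hx⟩
        · rw [harcold _ e1]; exact x1
        · rw [harcold _ e2]; exact x2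
      have hne' : (s(⟨c, hc'⟩, ⟨d, hd⟩) : Sym2 (Fin 27)) ≠ s(⟨a, ha⟩, ⟨b, hb⟩) := by
        intro h
        exact hne ((hconv c d a b hc' hd ha hb).mp h).symm
      have := hone.crossed_at_most_once _ (hG' _ e1) _ hnew _ (hG' _ e2) (hold _ e1).symm hne'
        cr1 cr2
      exact hold _ e2 this.symm
  -- the ends are in the closure of `s`
  have hcl : ∀ t : unitInterval, γ t ∈ closure s := by
    have hdense : Dense {t : unitInterval | t ≠ 0 ∧ t ≠ 1} := by
      have h1 : Dense ({0}ᶜ : Set unitInterval) := dense_compl_singleton 0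
      have h2 : Dense ({1}ᶜ : Set unitInterval) := dense_compl_singleton 1
      exact h1.inter_of_isOpen_left h2 isOpen_compl_singleton
    intro t
    have := image_closure_subset_closure_image hc (s := {t : unitInterval | t ≠ 0 ∧ t ≠ 1})
    apply this
    exact ⟨t, hdense t, rfl⟩
  have hucl : R u.val ∈ closure s := by
    have := hcl 0
    rw [h0] at this; exact this
  have hvcl : R v.val ∈ closure s := by
    have := hcl 1
    rw [h1] at this; exact this
  -- a point of `s` near `u`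
  have hex : ∃ p ∈ s, Near u.val p := by
    have h2 := eventually_near u.val
    rw [mem_closure_iff_frequently] at hucl
    obtain ⟨p, hp1, hp2⟩ := (hucl.and_eventually h2).exists
    exact ⟨p, hp1, hp2⟩
  obtain ⟨p, hps, hpn⟩ := hex
  have hConcl : Concl s := by
    rcases near_cover u.isLt hpn with ⟨f, hf, hpf⟩ | hpO
    · exact case_KF hnewarc hf hps hpf
    · exact case_Out hnewarc hps hpO
  rcases hConcl u.val v.val u.isLt v.isLt hucl hvcl with h | h
  · exact huv (Fin.ext h)
  · exact hadj h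

/-- The drawing is maximal. -/
theorem isMaximal27 : IsMaximalOnePlane G27 pos27 arc27 :=
  ⟨isOnePlane27, fun u v huv hadj arc' harc hone => no_new_arc u v huv hadj arc' harc hone⟩

end Pool.Agent.Helper29.OnePlane
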