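import Mathlib
import Pool.Agent.Helper29.OnePlane.Drawing

set_option autoImplicit false

namespace Pool.Agent.Helper29.OnePlane

/-- search order of the vertices -/
def order : List ℕ := [11, 12, 10, 7, 3, 8, 4, 5, 14, 18, 0, 26, 2, 19, 16, 15, 22, 1, 20, 23, 17, 21, 24, 13, 25, 9, 6]

/-- for each vertex `v` (in the search order) the pair `(2 ^ v, neighbourhood mask)` -/
def vlist : List (ℕ × ℕ) :=
  [(0x800, 0x34a8), (0x1000, 0x6960), (0x400, 0x6a88), (0x80, 0xc2e), (0x8, 0x60f94), (0x100,
   0x5258), (0x10, 0x230369), (0x20, 0x38d7), (0x4000, 0x3740), (0x40000, 0x50a000c), (0x1,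
   0x18072), (0x4000000, 0x35c0000), (0x4, 0x1e80aa), (0x80000, 0x5148004), (0x10000, 0x228013),
   (0x8000, 0xf90007), (0x400000, 0x6b08000), (0x2, 0x180a5), (0x100000, 0x6488004), (0x800000,
   0x3628000), (0x20000, 0x3a5001c), (0x200000, 0xc38010), (0x1000000, 0x68e0000), (0x2000,
   0x5e20), (0x2000000, 0x5d20000), (0x200, 0x6518), (0x40, 0x5131)]

theorem vlist_eq : vlist = order.map (fun v => (2 ^ v, ADJ / 2 ^ (27 * v) % 2 ^ 27)) := by
  decide +kernel

theorem order_lt : (order.all fun v => Nat.blt v 27) = true := by decide +kernel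

/-- one search pass -/
def pass (c : ℕ) : List (ℕ × ℕ) → ℕ → ℕ
  | [], r => r
  | x :: l, r => pass c l (cond (Nat.beq (Nat.land r x.1) 0) r (Nat.lor r (Nat.land x.2 c)))

/-- first vertex of `c` in the list -/
def start (c : ℕ) : List (ℕ × ℕ) → ℕ
  | [] => 0
  | x :: l => cond (Nat.beq (Nat.land c x.1) 0) (start c l) x.1

/-- the vertex set with mask `c` is connected -/
def conn (c : ℕ) : Bool :=
  Nat.beq (pass c vlist (start c vlist)) c ||
    Nat.beq (pass c vlist (pass c vlist (start c vlist))) c

/-- check `conn` for the complements of all unions of `m` with `k`-subsets of `{0, …, n-1}` -/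
def allSub : ℕ → ℕ → ℕ → Bool
  | _, 0, m => conn (Nat.xor 0x7ffffff m)
  | 0, _ + 1, _ => true
  | n + 1, k + 1, m => allSub n (k + 1) m && allSub n k (Nat.lor m (2 ^ n))

theorem allSub_ok : allSub 27 4 0 = true := by decide +kernel

/-- adjacency inside the vertex set with mask `c` -/
def RelC (c a b : ℕ) : Prop := adjB a b = true ∧ Nat.testBit c a = true ∧ Nat.testBit c b = true

/-- reachability inside the vertex set with mask `c` -/
def Rch (c : ℕ) : ℕ → ℕ → Prop := Relation.ReflTransGen (RelC c)

lemma testBit_of_land {r v : ℕ} (h : Nat.beq (Nat.land r (2 ^ v)) 0 = false) :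
    Nat.testBit r v = true := by
  by_contra hcon
  have hcon : Nat.testBit r v = false := by simpa using hcon
  have h0 : Nat.land r (2 ^ v) = 0 := by
    apply Nat.eq_of_testBit_eq
    intro i
    change (r &&& 2 ^ v).testBit i = Nat.testBit 0 i
    rw [Nat.testBit_land, Nat.testBit_two_pow, Nat.zero_testBit]
    by_cases hi : v = i
    · subst hi; rw [hcon]; simp
    · simp [hi]
  rw [h0] at h
  exact absurd h (by decide)

/-- Correct entries of the vertex list. -/
def Good (x : ℕ × ℕ) : Prop :=
  ∃ v, v < 27 ∧ x.1 = 2 ^ v ∧ ∀ w, Nat.testBit x.2 w = true → adjB v w = true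

lemma vlist_good : ∀ x ∈ vlist, Good x := by
  intro x hx
  rw [vlist_eq, List.mem_map] at hx
  obtain ⟨v, hv, rfl⟩ := hx
  have hv27 := List.all_eq_true.mp order_lt v hv
  rw [Nat.blt_eq] at hv27
  refine ⟨v, hv27, rfl, ?_⟩
  intro w hw
  dsimp only at hw
  rw [Nat.testBit_mod_two_pow, Bool.and_eq_true, decide_eq_true_eq] at hw
  obtain ⟨_, hw2⟩ := hw
  rw [Nat.testBit_div_two_pow, Nat.testBit_eq_decide_div_mod_eq, decide_eq_true_eq] at hw2
  unfold adjB
  rw [beq_iff_eq, Nat.add_comm]
  exact hw2

lemma pass_inv (c root : ℕ) : ∀ l : List (ℕ × ℕ), (∀ x ∈ l, Good x) → ∀ r,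
    (∀ w, Nat.testBit r w = true → Nat.testBit c w = true ∧ Rch c root w) →
    ∀ w, Nat.testBit (pass c l r) w = true → Nat.testBit c w = true ∧ Rch c root w
  | [], _, r, hr, w, hw => hr w hw
  | x :: l, hl, r, hr, w, hw => by
    apply pass_inv c root l (fun y hy => hl y (by simp [hy])) _ _ w hw
    obtain ⟨v, hv, hx1, hx2⟩ := hl x (by simp)
    intro w' hw'
    rcases hb : Nat.beq (Nat.land r x.1) 0 with _ | _
    · rw [hb] at hw'
      simp only [cond_false] at hw'
      change (r ||| (x.2 &&& c)).testBit w' = true at hw'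
      rw [Nat.testBit_lor, Nat.testBit_land, Bool.or_eq_true, Bool.and_eq_true] at hw'
      rcases hw' with h | ⟨h1, h2⟩
      · exact hr w' h
      · refine ⟨h2, ?_⟩
        rw [hx1] at hb
        obtain ⟨hv1, hv2⟩ := hr v (testBit_of_land hb)
        exact hv2.tail ⟨hx2 w' h1, hv1, h2⟩
    · rw [hb] at hw'
      exact hr w' hw'

lemma start_spec (c : ℕ) : ∀ l : List (ℕ × ℕ), (∀ x ∈ l, Good x) →
    ∃ root, ∀ w, Nat.testBit (start c l) w = true → Nat.testBit c w = true ∧ w = root
  | [], _ => ⟨0, fun w hw => by simp [start] at hw⟩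
  | x :: l, hl => by
    obtain ⟨v, hv, hx1, hx2⟩ := hl x (by simp)
    rcases hb : Nat.beq (Nat.land c x.1) 0 with _ | _
    · refine ⟨v, fun w hw => ?_⟩
      simp only [start, hb, cond_false] at hw
      rw [hx1, Nat.testBit_two_pow, decide_eq_true_eq] at hw
      rw [hx1] at hb
      rw [← hw]
      exact ⟨testBit_of_land hb, rfl⟩
    · obtain ⟨root, hroot⟩ := start_spec c l (fun y hy => hl y (by simp [hy]))
      refine ⟨root, fun w hw => ?_⟩
      simp only [start, hb, cond_true] at hw
      exact hroot w hw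

lemma conn_spec {c : ℕ} (h : conn c = true) :
    ∃ root, ∀ w, Nat.testBit c w = true → Rch c root w := by
  obtain ⟨root, hroot⟩ := start_spec c vlist vlist_good
  refine ⟨root, fun w hw => ?_⟩
  have h0 : ∀ w, Nat.testBit (start c vlist) w = true →
      Nat.testBit c w = true ∧ Rch c root w := by
    intro w hw
    obtain ⟨h1, h2⟩ := hroot w hw
    refine ⟨h1, ?_⟩
    rw [h2]
    exact Relation.ReflTransGen.refl
  have h1 := pass_inv c root vlist vlist_good _ h0
  have h2 := pass_inv c root vlist vlist_good _ h1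
  unfold conn at h
  rw [Bool.or_eq_true, Nat.beq_eq, Nat.beq_eq] at h
  rcases h with h | h
  · rw [h] at h1
    exact (h1 w hw).2
  · rw [h] at h2
    exact (h2 w hw).2

lemma rch_symm {c a b : ℕ} (hc : ∀ w, Nat.testBit c w = true → w < 27) (h : Rch c a b) :
    Rch c b a := by
  induction h with
  | refl => exact Relation.ReflTransGen.refl
  | tail _ hbc ih =>
    obtain ⟨h1, h2, h3⟩ := hbc
    exact Relation.ReflTransGen.head ⟨adjB_symm (hc _ h2) (hc _ h3) h1, h3, h2⟩ ih

lemma allSub_spec : ∀ (n k m : ℕ), allSub n k m = true → ∀ T : Finset ℕ, T ⊆ Finset.range n →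
    T.card = k → ∃ m', (∀ w, Nat.testBit m' w = (Nat.testBit m w || decide (w ∈ T))) ∧
      conn (Nat.xor 0x7ffffff m') = true
  | n, 0, m, h, T, _, hc => by
    rw [Finset.card_eq_zero] at hc
    subst hc
    refine ⟨m, fun w => by simp, ?_⟩
    cases n <;> exact h
  | 0, k + 1, m, _, T, hT, hc => by
    have : T = ∅ := by
      rw [Finset.range_zero] at hT
      exact Finset.subset_empty.mp hT
    rw [this] at hc
    simp at hc
  | n + 1, k + 1, m, h, T, hT, hc => by
    rw [allSub, Bool.and_eq_true] at h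
    obtain ⟨h1, h2⟩ := h
    by_cases hn : n ∈ T
    · obtain ⟨m', hm', hconn⟩ := allSub_spec n k (Nat.lor m (2 ^ n)) h2 (T.erase n) (by
        intro x hx
        rw [Finset.mem_erase] at hx
        have := hT hx.2
        rw [Finset.mem_range] at this ⊢
        omega) (by rw [Finset.card_erase_of_mem hn, hc]; rfl)
      refine ⟨m', fun w => ?_, hconn⟩
      rw [hm']
      change ((m ||| 2 ^ n).testBit w || _) = _
      rw [Nat.testBit_lor, Nat.testBit_two_pow]
      by_cases hw : n = w
      · subst hw; simp [hn]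
      · have hw' : ¬ w = n := fun e => hw e.symm
        simp [hw, hw', Finset.mem_erase]
    · obtain ⟨m', hm', hconn⟩ := allSub_spec n (k + 1) m h1 T (by
        intro x hx
        have := hT hx
        rw [Finset.mem_range] at this ⊢
        have hne : x ≠ n := by rintro rfl; exact hn hx
        omega) hc
      exact ⟨m', hm', hconn⟩

/-- Deleting exactly four vertices leaves all remaining vertices mutually reachable. -/
lemma reachable_four (S : Finset (Fin 27)) (hS : S.card = 4) (u v : Fin 27) (hu : u ∉ S)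
    (hv : v ∉ S) : (G27.induce {x | x ∉ S}).Reachable ⟨u, hu⟩ ⟨v, hv⟩ := by
  classical
  have hsub : S.map Fin.valEmbedding ⊆ Finset.range 27 := by
    intro x hx
    rw [Finset.mem_map] at hx
    obtain ⟨y, _, rfl⟩ := hx
    exact Finset.mem_range.mpr y.isLt
  obtain ⟨m', hm', hconn⟩ := allSub_spec 27 4 0 allSub_ok (S.map Fin.valEmbedding) hsub
    (by rw [Finset.card_map]; exact hS)
  obtain ⟨root, hroot⟩ := conn_spec hconn
  have hfull : ∀ w, Nat.testBit 0x7ffffff w = decide (w < 27) := by
    intro w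
    have : (0x7ffffff : ℕ) = 2 ^ 27 - 1 := by norm_num
    rw [this, Nat.testBit_two_pow_sub_one]
  have hc : ∀ w, Nat.testBit (Nat.xor 0x7ffffff m') w = true ↔
      (w < 27 ∧ w ∉ S.map Fin.valEmbedding) := by
    intro w
    change (0x7ffffff ^^^ m').testBit w = true ↔ _
    rw [Nat.testBit_xor, hfull, hm', Nat.zero_testBit, Bool.false_or]
    by_cases h1 : w < 27
    · by_cases h2 : w ∈ S.map Fin.valEmbedding
      · simp only [h1, h2]; simp
      · simp only [h1, h2]; simp
    · have h2 : w ∉ S.map Fin.valEmbedding := fun h => h1 (Finset.mem_range.mp (hsub h))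
      simp only [h1, h2]; simp
  have hmem : ∀ x : Fin 27, x ∉ S → Nat.testBit (Nat.xor 0x7ffffff m') x.val = true := by
    intro x hx
    rw [hc]
    refine ⟨x.isLt, ?_⟩
    rw [Finset.mem_map]
    rintro ⟨y, hy, hyx⟩
    have : y = x := Fin.ext hyx
    exact hx (this ▸ hy)
  have hreach : Rch (Nat.xor 0x7ffffff m') u.val v.val :=
    (rch_symm (fun w hw => ((hc w).mp hw).1) (hroot u.val (hmem u hu))).trans
      (hroot v.val (hmem v hv))
  -- convert to reachability in the induced graph
  have key : ∀ b, Rch (Nat.xor 0x7ffffff m') u.val b → ∃ (hb : b < 27) (hbS : (⟨b, hb⟩ : Fin 27) ∉ S),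
      (G27.induce {x | x ∉ S}).Reachable ⟨u, hu⟩ ⟨⟨b, hb⟩, hbS⟩ := by
    intro b hb
    induction hb with
    | refl => exact ⟨u.isLt, hu, SimpleGraph.Reachable.refl _⟩
    | @tail b c _ hbc ih =>
      obtain ⟨hb27, hbS, hr⟩ := ih
      obtain ⟨h1, _, h3⟩ := hbc
      have hc' := (hc c).mp h3
      have hcS : (⟨c, hc'.1⟩ : Fin 27) ∉ S := by
        intro h
        exact hc'.2 (Finset.mem_map.mpr ⟨_, h, rfl⟩)
      refine ⟨hc'.1, hcS, hr.trans ?_⟩
      apply SimpleGraph.Adj.reachable
      exact h1
  obtain ⟨_, _, hr⟩ := key v.val hreach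
  exact hr

/-- Deleting at most four vertices leaves a connected graph. -/
lemma connected_lt_five (S : Finset (Fin 27)) (hS : S.card < 5) :
    (G27.induce {x | x ∉ S}).Connected := by
  classical
  have hne : ∃ x : Fin 27, x ∉ S := by
    by_contra hcon
    push Not at hcon
    have h1 : (Finset.univ : Finset (Fin 27)) ⊆ S := fun x _ => hcon x
    have h2 := Finset.card_le_card h1
    rw [Finset.card_univ, Fintype.card_fin] at h2
    omega
  have hpre : (G27.induce {x | x ∉ S}).Preconnected := by
    rintro ⟨u, hu⟩ ⟨v, hv⟩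
    have hu' : u ∉ S := hu
    have hv' : v ∉ S := hv
    have hsub : S ⊆ Finset.univ \ {u, v} := by
      intro x hx
      rw [Finset.mem_sdiff]
      refine ⟨Finset.mem_univ _, ?_⟩
      rw [Finset.mem_insert, Finset.mem_singleton]
      rintro (rfl | rfl)
      · exact hu' hx
      · exact hv' hx
    have hcard : 4 ≤ (Finset.univ \ {u, v} : Finset (Fin 27)).card := by
      have h1 : (Finset.univ \ {u, v} : Finset (Fin 27)).card + ({u, v} : Finset (Fin 27)).card =
          (Finset.univ : Finset (Fin 27)).card :=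
        Finset.card_sdiff_add_card_eq_card (Finset.subset_univ _)
      have h2 : ({u, v} : Finset (Fin 27)).card ≤ 2 := Finset.card_le_two
      rw [Finset.card_univ, Fintype.card_fin] at h1
      omega
    obtain ⟨S', h1, h2, h3⟩ := Finset.exists_subsuperset_card_eq hsub (by omega : S.card ≤ 4) hcard
    have huS' : u ∉ S' := by
      intro h
      have := h2 h
      simp at this
    have hvS' : v ∉ S' := by
      intro h
      have := h2 h
      simp at this
    have hr := reachable_four S' h3 u v huS' hvS'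
    have hle : {x : Fin 27 | x ∉ S'} ≤ {x : Fin 27 | x ∉ S} := fun x hx h => hx (h1 h)
    exact hr.map (SimpleGraph.induceHomOfLE G27 hle).toHom
  obtain ⟨x, hx⟩ := hne
  have : Nonempty ↑{x : Fin 27 | x ∉ S} := ⟨⟨x, hx⟩⟩
  exact ⟨hpre⟩

theorem sides_ok : ((List.range 27).all fun i => (List.range 27).all fun j =>
    !(adjB i j) || !(Nat.ble 5 i && Nat.ble i 14) || Nat.ble j 14) = true := by decide +kernel

/-- Five vertices that separate the graph. -/
lemma cut_five : ∃ S : Finset (Fin 27), S.card = 5 ∧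
    ¬ (G27.induce {x | x ∉ S}).Preconnected := by
  refine ⟨{0, 1, 2, 3, 4}, by decide, ?_⟩
  intro hpre
  have hr := hpre ⟨5, by decide⟩ ⟨15, by decide⟩
  have key : ∀ (x y : {x : Fin 27 // x ∉ ({0, 1, 2, 3, 4} : Finset (Fin 27))}),
      (G27.induce {x | x ∉ ({0, 1, 2, 3, 4} : Finset (Fin 27))}).Reachable x y →
      x.1.val ≤ 14 → y.1.val ≤ 14 := by
    intro x y hxy
    obtain ⟨w⟩ := hxy
    induction w with
    | nil => exact fun h => h
    | @cons a b c hab _ ih =>
      intro ha
      apply ih
      have hadj : adjB a.1.val b.1.val = true := hab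
      have h1 := List.all_eq_true.mp sides_ok a.1.val (List.mem_range.mpr a.1.isLt)
      have h2 := List.all_eq_true.mp h1 b.1.val (List.mem_range.mpr b.1.isLt)
      rw [hadj] at h2
      simp only [Bool.not_true, Bool.false_or, Bool.or_eq_true, Bool.not_eq_true',
        Bool.and_eq_false_iff, Nat.ble_eq] at h2
      have ha5 : 5 ≤ a.1.val := by
        by_contra hcon
        apply a.2
        have h5 : a.1.val < 5 := by omega
        have : a.1 = 0 ∨ a.1 = 1 ∨ a.1 = 2 ∨ a.1 = 3 ∨ a.1 = 4 := by
          simp only [Fin.ext_iff]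
          change a.1.val = 0 ∨ a.1.val = 1 ∨ a.1.val = 2 ∨ a.1.val = 3 ∨ a.1.val = 4
          omega
        simpa using this
      rcases h2 with (h2 | h2) | h2
      · have := Nat.ble_eq.mpr ha5
        rw [h2] at this
        exact absurd this (by decide)
      · have := Nat.ble_eq.mpr ha
        rw [h2] at this
        exact absurd this (by decide)
      · exact h2
  have h := key _ _ hr (by decide)
  exact absurd h (by decide)

theorem connectivity27 : HasVertexConnectivity G27 5 := ⟨connected_lt_five, cut_five⟩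

end Pool.Agent.Helper29.OnePlane
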