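import Mathlib
import Pool.Agent.Helper29.OnePlane.Drawing

set_option autoImplicit false

namespace Pool.Agent.Helper29.OnePlane

instance decG27 : DecidableRel G27.Adj := fun i j =>
  inferInstanceAs (Decidable (adjB i.val j.val = true))

/-- degree of vertex `i` from the table -/
def degT (i : ℕ) : ℕ := ((List.range 27).filter (fun j => adjB i j)).length

theorem deg_sum : ((List.range 27).map degT).sum = 180 := by decide +kernel

lemma degree_eq (i : Fin 27) : G27.degree i = degT i.val := by
  unfold degT
  rw [← SimpleGraph.card_neighborFinset_eq_degree]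
  have h1 : (G27.neighborFinset i).map Fin.valEmbedding =
      ((List.range 27).filter (fun j => adjB i.val j)).toFinset := by
    ext x
    simp only [Finset.mem_map, SimpleGraph.mem_neighborFinset, List.mem_toFinset, List.mem_filter,
      List.mem_range]
    constructor
    · rintro ⟨y, hy, rfl⟩
      exact ⟨y.isLt, hy⟩
    · rintro ⟨hx, hx2⟩
      exact ⟨⟨x, hx⟩, hx2, rfl⟩
  have h2 := congrArg Finset.card h1
  rw [Finset.card_map, List.toFinset_card_of_nodup] at h2
  · exact h2
  · exact List.Nodup.filter _ List.nodup_range

theorem edge_count : G27.edgeSet.ncard = 90 := by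
  have h1 := G27.sum_degrees_eq_twice_card_edges
  have h2 : ∑ v, G27.degree v = 180 := by
    have h3 : ∑ v : Fin 27, G27.degree v = ∑ v : Fin 27, degT v.val :=
      Finset.sum_congr rfl (fun i _ => degree_eq i)
    rw [h3, Fin.sum_univ_eq_sum_range (f := degT), ← deg_sum]
    rfl
  rw [h2] at h1
  have h3 : G27.edgeFinset.card = 90 := by omega
  rw [← h3, ← SimpleGraph.coe_edgeFinset, Set.ncard_coe_finset]

end Pool.Agent.Helper29.OnePlane
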