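import Mathlib
import Pool.Agent.Helper29.OnePlane.Drawing

set_option autoImplicit false

namespace Pool.Agent.Helper29.OnePlane

theorem kites_length : kitesL.length = 15 := by decide +kernel
theorem kites_nodup : kitesL.Nodup := by decide +kernel

/-- the `i`-th kite -/
def kite (i : Fin 15) : ℕ × ℕ × ℕ × ℕ := kitesL.get (Fin.cast kites_length.symm i)

lemma kite_injective : Function.Injective kite := by
  intro i j h
  have h1 := List.nodup_iff_injective_get.mp kites_nodup h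
  simpa [Fin.ext_iff] using h1

lemma kite_mem (i : Fin 15) : kite i ∈ kitesL := List.get_mem _ _

lemma exists_kite {k : ℕ × ℕ × ℕ × ℕ} (hk : k ∈ kitesL) : ∃ i, kite i = k := by
  obtain ⟨n, hn⟩ := List.get_of_mem hk
  exact ⟨Fin.cast kites_length n, by simpa [kite] using hn⟩

lemma kite_face {k : ℕ × ℕ × ℕ × ℕ} (hk : k ∈ kitesL) : k ∈ facesL := by
  have h := List.all_eq_true.mp kites_faces_ok k hk
  simp only [Bool.and_eq_true, List.contains_iff_mem] at h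
  exact h.1.1.1

theorem kites_ne_ok : (kitesL.all fun k => !(k.2.2.1 == k.2.2.2)) = true := by decide +kernel

lemma kite_ne {k : ℕ × ℕ × ℕ × ℕ} (hk : k ∈ kitesL) : k.2.2.1 ≠ k.2.2.2 := by
  have h := List.all_eq_true.mp kites_ne_ok k hk
  simpa using h

lemma exists_x (i : Fin 15) : ∃ x, x ∈ seg (kite i).2.1 (kite i).2.2.2 ∧
    x ∈ seg (kite i).2.2.1 (kite i).1 ∧ (∀ w, w < 27 → x ≠ R w) ∧
    s((kite i).2.1, (kite i).2.2.2) ≠ s((kite i).2.2.1, (kite i).1) :=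
  quarter_cross (kite_face (kite_mem i)) (kite_ne (kite_mem i))

/-- the `i`-th crossing point -/
noncomputable def xpt (i : Fin 15) : ℝ × ℝ := (exists_x i).choose

lemma xpt_spec (i : Fin 15) : xpt i ∈ seg (kite i).2.1 (kite i).2.2.2 ∧
    xpt i ∈ seg (kite i).2.2.1 (kite i).1 ∧ (∀ w, w < 27 → xpt i ≠ R w) ∧
    s((kite i).2.1, (kite i).2.2.2) ≠ s((kite i).2.2.1, (kite i).1) :=
  (exists_x i).choose_spec

lemma line_unique {A B C D p q : ℝ × ℝ} (hne : orR C A B ≠ orR C A D) (hp : p ∈ segment ℝ B D)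
    (hq : q ∈ segment ℝ B D) (hp' : orR C A p = 0) (hq' : orR C A q = 0) : p = q := by
  obtain ⟨s, t, _, _, hst, rfl⟩ := hp
  obtain ⟨s', t', _, _, hst', rfl⟩ := hq
  rw [orR_affine _ _ _ _ _ _ hst] at hp'
  rw [orR_affine _ _ _ _ _ _ hst'] at hq'
  have ht : t = 1 - s := by linarith
  have ht' : t' = 1 - s' := by linarith
  subst ht ht'
  have h1 : (s - s') * (orR C A B - orR C A D) = 0 := by linear_combination hp' - hq'
  rcases mul_eq_zero.mp h1 with h2 | h2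
  · have : s = s' := by linarith
    rw [this]
  · exact absurd (by linarith) hne

lemma kite_point_unique {k : ℕ × ℕ × ℕ × ℕ} (hk : k ∈ kitesL) {p q : ℝ × ℝ}
    (hp : p ∈ seg k.2.1 k.2.2.2) (hp' : p ∈ seg k.2.2.1 k.1)
    (hq : q ∈ seg k.2.1 k.2.2.2) (hq' : q ∈ seg k.2.2.1 k.1) : p = q := by
  obtain ⟨hF, _⟩ := face_ok (kite_face hk)
  have h1 : 0 < orR (R k.2.2.1) (R k.1) (R k.2.1) := by rw [orR_rot']; exact hF.c
  have h2 := hF.cad
  exact line_unique (by intro h; linarith) hp hq (orR_seg_zero hp') (orR_seg_zero hq')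

lemma face_edges_mem {f : ℕ × ℕ × ℕ × ℕ} (hf : f ∈ facesL) :
    ∃ (l1 : f.1 < 27) (l2 : f.2.1 < 27) (l3 : f.2.2.1 < 27) (l4 : f.2.2.2 < 27),
      (s(⟨f.2.1, l2⟩, ⟨f.2.2.2, l4⟩) : Sym2 (Fin 27)) ∈ G27.edgeSet ∧
      (s(⟨f.2.2.1, l3⟩, ⟨f.1, l1⟩) : Sym2 (Fin 27)) ∈ G27.edgeSet := by
  obtain ⟨hF, a1, a2, a3⟩ := face_ok hf
  have hlt := List.all_eq_true.mp faces_lt_ok f hf
  simp only [Bool.and_eq_true, Nat.blt_eq] at hlt
  obtain ⟨⟨⟨l1, l2⟩, l3⟩, l4⟩ := hlt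
  exact ⟨l1, l2, l3, l4, a2, a3⟩

lemma sym2_conv {a b c d : ℕ} (ha : a < 27) (hb : b < 27) (hc : c < 27) (hd : d < 27) :
    (s(⟨a, ha⟩, ⟨b, hb⟩) : Sym2 (Fin 27)) = s(⟨c, hc⟩, ⟨d, hd⟩) ↔ s(a, b) = s(c, d) := by
  rw [Sym2.eq_iff, Sym2.eq_iff]
  simp only [Fin.mk.injEq]

lemma xpt_injective : Function.Injective xpt := by
  intro i j hij
  obtain ⟨i1, i2, i3, i4⟩ := xpt_spec i
  obtain ⟨j1, j2, j3, j4⟩ := xpt_spec j
  rw [← hij] at j1 j2
  have hki := kite_mem i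
  have hkj := kite_mem j
  obtain ⟨l1, l2, l3, l4, e1, e2⟩ := face_edges_mem (kite_face hki)
  obtain ⟨m1, m2, m3, m4, f1, f2⟩ := face_edges_mem (kite_face hkj)
  have hx : xpt i ∉ Set.range pos27 := by
    rintro ⟨w, hw⟩
    exact i3 w.val w.isLt hw.symm
  have cr1 : Crosses pos27 arc27 s(⟨(kite i).2.2.1, l3⟩, ⟨(kite i).1, l1⟩)
      s(⟨(kite i).2.1, l2⟩, ⟨(kite i).2.2.2, l4⟩) := ⟨xpt i, i2, i1, hx⟩
  have cr2 : Crosses pos27 arc27 s(⟨(kite i).2.2.1, l3⟩, ⟨(kite i).1, l1⟩)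
      s(⟨(kite j).2.2.1, m3⟩, ⟨(kite j).1, m1⟩) := ⟨xpt i, i2, j2, hx⟩
  have hfe : (s(⟨(kite i).2.1, l2⟩, ⟨(kite i).2.2.2, l4⟩) : Sym2 (Fin 27)) ≠
      s(⟨(kite i).2.2.1, l3⟩, ⟨(kite i).1, l1⟩) := by
    rw [Ne, sym2_conv]; exact i4
  have hcases : s((kite j).2.2.1, (kite j).1) = s((kite i).2.2.1, (kite i).1) ∨
      s((kite j).2.2.1, (kite j).1) = s((kite i).2.1, (kite i).2.2.2) := by
    by_cases h : (s(⟨(kite j).2.2.1, m3⟩, ⟨(kite j).1, m1⟩) : Sym2 (Fin 27)) =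
        s(⟨(kite i).2.2.1, l3⟩, ⟨(kite i).1, l1⟩)
    · left; rwa [sym2_conv] at h
    · right
      have := crossed_once e2 e1 f2 hfe h cr1 cr2
      rw [sym2_conv] at this
      exact this.symm
  have hd := List.all_eq_true.mp (List.all_eq_true.mp kites_distinct_ok _ hki) _ hkj
  rw [Bool.or_eq_true] at hd
  rcases hd with hd | hd
  · exact kite_injective (beq_iff_eq.mp hd)
  · exfalso
    rw [Bool.not_eq_true'] at hd
    have hd2 : ¬ (((((kite j).1 = (kite i).1 ∧ (kite j).2.2.1 = (kite i).2.2.1) ∨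
        ((kite j).1 = (kite i).2.2.1 ∧ (kite j).2.2.1 = (kite i).1)) ∨
        ((kite j).1 = (kite i).2.1 ∧ (kite j).2.2.1 = (kite i).2.2.2)) ∨
        ((kite j).1 = (kite i).2.2.2 ∧ (kite j).2.2.1 = (kite i).2.1)) := by
      intro hcon
      rw [← Bool.not_eq_true] at hd
      apply hd
      simp only [Bool.or_eq_true, Bool.and_eq_true, beq_iff_eq]
      exact hcon
    apply hd2
    rcases hcases with h | h <;> rw [Sym2.eq_iff] at h
    · rcases h with ⟨h1, h2⟩ | ⟨h1, h2⟩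
      · exact Or.inl (Or.inl (Or.inl ⟨h2, h1⟩))
      · exact Or.inl (Or.inl (Or.inr ⟨h2, h1⟩))
    · rcases h with ⟨h1, h2⟩ | ⟨h1, h2⟩
      · exact Or.inr ⟨h2, h1⟩
      · exact Or.inl (Or.inr ⟨h2, h1⟩)

lemma crossingPoints_eq : crossingPoints G27 pos27 arc27 = Set.range xpt := by
  ext p
  constructor
  · rintro ⟨hp, e, he, f, hf, hef, hpe, hpf⟩
    obtain ⟨x, hx, xa, xs⟩ := edge_list he
    obtain ⟨y, hy, ya, ys⟩ := edge_list hf
    rw [xa] at hpe
    rw [ya] at hpf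
    have h := List.all_eq_true.mp (List.all_eq_true.mp pairs_ok x hx) y hy
    unfold pairOK at h
    rw [Bool.or_eq_true, Bool.or_eq_true, List.any_eq_true] at h
    rcases h with (h | h) | ⟨k, hk, h⟩
    · exfalso
      rw [beq_iff_eq] at h
      apply hef
      apply map_val_injective
      rw [xs, ys, h]
    · exact absurd (noCross_spec hx hy h hpe hpf) (not_vertex hp)
    · obtain ⟨i, hi⟩ := exists_kite hk
      have hkey : p ∈ seg k.2.1 k.2.2.2 ∧ p ∈ seg k.2.2.1 k.1 := by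
        unfold isKite at h
        simp only [Bool.or_eq_true, Bool.and_eq_true, beq_iff_eq] at h
        clear xa ya xs ys hef
        rcases h with ⟨h1 | h1, h2 | h2⟩ | ⟨h1 | h1, h2 | h2⟩ <;> subst h1 <;> subst h2 <;>
          dsimp only at hpe hpf <;>
          constructor <;> first | assumption | (rw [seg_comm]; assumption)
      refine ⟨i, ?_⟩
      obtain ⟨i1, i2, _, _⟩ := xpt_spec i
      rw [hi] at i1 i2
      exact kite_point_unique hk i1 i2 hkey.1 hkey.2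
  · rintro ⟨i, rfl⟩
    obtain ⟨i1, i2, i3, i4⟩ := xpt_spec i
    obtain ⟨l1, l2, l3, l4, e1, e2⟩ := face_edges_mem (kite_face (kite_mem i))
    refine ⟨?_, _, e1, _, e2, ?_, i1, i2⟩
    · rintro ⟨w, hw⟩
      exact i3 w.val w.isLt hw.symm
    · rw [Ne, sym2_conv]; exact i4

theorem crossing_count : (crossingPoints G27 pos27 arc27).ncard = 15 := by
  rw [crossingPoints_eq, ← Set.image_univ, Set.ncard_image_of_injective _ xpt_injective,
    Set.ncard_univ, Nat.card_fin]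

end Pool.Agent.Helper29.OnePlane
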